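import Pool.Agent.Lib_helper19.FLG.Hilb

/-!
# Dimensions of homogeneous left ideals (MP_ef4bac_al, flags)
-/

set_option autoImplicit false
set_option linter.unusedSectionVars false

namespace Pool.Agent.FLG

open DirectSum Module

variable {K : Type*} [Field K] {A : Type*} [Ring A] [Algebra K A]
variable (𝒜 : ℕ → Submodule K A) [GradedAlgebra 𝒜]

/-- The piece of degree `s` of a left ideal. -/
def pc (P : Ideal A) (s : ℕ) : Submodule K A := P.restrictScalars K ⊓ 𝒜 s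

theorem mem_pc {P : Ideal A} {s : ℕ} {x : A} : x ∈ pc 𝒜 P s ↔ x ∈ P ∧ x ∈ 𝒜 s := by
  simp [pc]

/-- Right multiplication by `z`. -/
def Rz (z : A) : A →ₗ[A] A := LinearMap.toSpanSingleton A A z

@[simp] theorem Rz_apply (z a : A) : Rz z a = a * z := by
  simp [Rz]

/-- The left ideal `P z`. -/
def mp (z : A) (P : Ideal A) : Ideal A := Submodule.map (Rz z) P

/-- The left ideal of the `a` with `a z ∈ P`. -/
def cm (z : A) (P : Ideal A) : Ideal A := Submodule.comap (Rz z) P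

theorem mem_mp {z : A} {P : Ideal A} {x : A} : x ∈ mp z P ↔ ∃ p ∈ P, p * z = x := by
  simp [mp, Submodule.mem_map]

theorem mem_cm {z : A} {P : Ideal A} {x : A} : x ∈ cm z P ↔ x * z ∈ P := by
  simp [cm, Submodule.mem_comap]

variable [∀ s, Module.Finite K (𝒜 s)]

instance pc_finite (P : Ideal A) (s : ℕ) : Module.Finite K (pc 𝒜 P s) :=
  Submodule.finiteDimensional_of_le (S₂ := 𝒜 s) inf_le_right

/-- The dimension of the piece of degree `s`. -/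
noncomputable def hd (P : Ideal A) (s : ℕ) : ℕ := finrank K (pc 𝒜 P s)

/-- The same as a real number. -/
noncomputable def hf (P : Ideal A) (s : ℕ) : ℝ := (hd 𝒜 P s : ℝ)

theorem hf_nonneg (P : Ideal A) (s : ℕ) : 0 ≤ hf 𝒜 P s := Nat.cast_nonneg _

theorem hd_mono {P Q : Ideal A} (h : P ≤ Q) (s : ℕ) : hd 𝒜 P s ≤ hd 𝒜 Q s :=
  Submodule.finrank_mono (inf_le_inf_right _ (fun _ hx => h hx))

theorem hf_mono {P Q : Ideal A} (h : P ≤ Q) (s : ℕ) : hf 𝒜 P s ≤ hf 𝒜 Q s :=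
  Nat.cast_le.2 (hd_mono 𝒜 h s)

theorem le_of_pc {P Q : Ideal A} (hP : P.IsHomogeneous 𝒜) (h : ∀ s, pc 𝒜 P s ≤ pc 𝒜 Q s) :
    P ≤ Q := by
  classical
  intro x hx
  rw [← DirectSum.sum_support_decompose 𝒜 x]
  refine Ideal.sum_mem _ fun j _ => ?_
  exact ((mem_pc 𝒜).1 (h j ((mem_pc 𝒜).2 ⟨hP j hx, SetLike.coe_mem _⟩))).1

theorem eq_of_hd {P Q : Ideal A} (h : P ≤ Q) (hQ : Q.IsHomogeneous 𝒜)
    (he : ∀ s, hd 𝒜 P s = hd 𝒜 Q s) : P = Q := by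
  refine le_antisymm h (le_of_pc 𝒜 hQ fun s => ?_)
  have h1 : pc 𝒜 P s ≤ pc 𝒜 Q s := inf_le_inf_right _ (fun _ hx => h hx)
  exact (Submodule.eq_of_le_of_finrank_eq h1 (he s)).ge

omit [∀ s, Module.Finite K (𝒜 s)] in
theorem pc_sup {P Q : Ideal A} (hP : P.IsHomogeneous 𝒜) (hQ : Q.IsHomogeneous 𝒜) (s : ℕ) :
    pc 𝒜 (P ⊔ Q) s = pc 𝒜 P s ⊔ pc 𝒜 Q s := by
  apply le_antisymm
  · intro x hx
    obtain ⟨h1, h2⟩ := (mem_pc 𝒜).1 hx
    obtain ⟨p, hp, q, hq, rfl⟩ := Submodule.mem_sup.1 h1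
    have h3 : ((decompose 𝒜 (p + q) s : 𝒜 s) : A) = p + q := DirectSum.decompose_of_mem_same 𝒜 h2
    rw [DirectSum.decompose_add, DirectSum.add_apply] at h3
    rw [← h3, Submodule.coe_add]
    exact Submodule.add_mem_sup ((mem_pc 𝒜).2 ⟨hP s hp, SetLike.coe_mem _⟩)
      ((mem_pc 𝒜).2 ⟨hQ s hq, SetLike.coe_mem _⟩)
  · refine sup_le (inf_le_inf_right _ ?_) (inf_le_inf_right _ ?_)
    · exact fun x hx => (le_sup_left : P ≤ P ⊔ Q) hx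
    · exact fun x hx => (le_sup_right : Q ≤ P ⊔ Q) hx

theorem hd_sup_add_inf {P Q : Ideal A} (hP : P.IsHomogeneous 𝒜) (hQ : Q.IsHomogeneous 𝒜)
    (s : ℕ) : hd 𝒜 (P ⊔ Q) s + hd 𝒜 (P ⊓ Q) s = hd 𝒜 P s + hd 𝒜 Q s := by
  unfold hd
  rw [pc_sup 𝒜 hP hQ s]
  have : pc 𝒜 (P ⊓ Q) s = pc 𝒜 P s ⊓ pc 𝒜 Q s := by
    ext x
    simp only [mem_pc, Submodule.mem_inf]
    tauto
  rw [this]
  exact Submodule.finrank_sup_add_finrank_inf_eq _ _

omit [∀ s, Module.Finite K (𝒜 s)] in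
theorem map_homog {P : Ideal A} (hP : P.IsHomogeneous 𝒜) {z : A} {e : ℕ} (hz : z ∈ 𝒜 e) :
    (mp z P : Ideal A).IsHomogeneous 𝒜 := by
  intro s x hx
  obtain ⟨p, hp, rfl⟩ := mem_mp.1 hx
  by_cases h : e ≤ s
  · have h1 := DirectSum.coe_decompose_mul_of_right_mem_of_le 𝒜 (a := p) hz h
    rw [h1]
    exact mem_mp.2 ⟨_, hP (s - e) hp, rfl⟩
  · have h1 := DirectSum.coe_decompose_mul_of_right_mem_of_not_le 𝒜 (a := p) hz h
    rw [h1]
    exact Submodule.zero_mem _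

omit [∀ s, Module.Finite K (𝒜 s)] in
theorem comap_homog {P : Ideal A} (hP : P.IsHomogeneous 𝒜) {z : A} {e : ℕ} (hz : z ∈ 𝒜 e) :
    (cm z P : Ideal A).IsHomogeneous 𝒜 := by
  intro s x hx
  have hx' : x * z ∈ P := mem_cm.1 hx
  refine mem_cm.2 ?_
  have h1 := DirectSum.coe_decompose_mul_add_of_right_mem 𝒜 (a := x) (i := s) hz
  rw [← h1]
  exact hP _ hx'

/-- **The dimension formula** for `I + P z`. -/
theorem hd_map {I P : Ideal A} (hI : I.IsHomogeneous 𝒜) (hP : P.IsHomogeneous 𝒜) {z : A} {e : ℕ}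
    (hz : z ∈ 𝒜 e) (s : ℕ) :
    hd 𝒜 (I ⊔ mp z P) (s + e) + hd 𝒜 (P ⊓ cm z I) s
      = hd 𝒜 I (s + e) + hd 𝒜 P s := by
  classical
  let g : (pc 𝒜 P s × pc 𝒜 I (s + e)) →ₗ[K] A :=
    LinearMap.coprod ((LinearMap.mulRight K z).comp (pc 𝒜 P s).subtype) (pc 𝒜 I (s + e)).subtype
  have hg : ∀ p : pc 𝒜 P s × pc 𝒜 I (s + e), g p = (p.1 : A) * z + (p.2 : A) := by
    intro p
    simp [g]
  have hr : LinearMap.range g = pc 𝒜 (I ⊔ mp z P) (s + e) := by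
    apply le_antisymm
    · rintro _ ⟨p, rfl⟩
      rw [hg]
      obtain ⟨h1, h2⟩ := (mem_pc 𝒜).1 p.1.2
      obtain ⟨h3, h4⟩ := (mem_pc 𝒜).1 p.2.2
      refine (mem_pc 𝒜).2 ⟨?_, ?_⟩
      · rw [add_comm]
        exact Submodule.add_mem_sup h3 (mem_mp.2 ⟨_, h1, rfl⟩)
      · exact Submodule.add_mem _ (SetLike.GradedMul.mul_mem h2 hz) h4
    · intro x hx
      obtain ⟨h1, h2⟩ := (mem_pc 𝒜).1 hx
      obtain ⟨i, hi, q, hq, rfl⟩ := Submodule.mem_sup.1 h1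
      obtain ⟨p, hp, rfl⟩ := mem_mp.1 hq
      have h3 : ((decompose 𝒜 (i + p * z) (s + e) : 𝒜 (s + e)) : A) = i + p * z :=
        DirectSum.decompose_of_mem_same 𝒜 h2
      rw [DirectSum.decompose_add, DirectSum.add_apply, Submodule.coe_add,
        DirectSum.coe_decompose_mul_add_of_right_mem 𝒜 hz] at h3
      refine ⟨(⟨_, (mem_pc 𝒜).2 ⟨hP s hp, SetLike.coe_mem _⟩⟩,
        ⟨_, (mem_pc 𝒜).2 ⟨hI (s + e) hi, SetLike.coe_mem _⟩⟩), ?_⟩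
      rw [hg, ← h3]
      exact add_comm _ _
  have hk : finrank K (LinearMap.ker g) = hd 𝒜 (P ⊓ cm z I) s := by
    unfold hd
    have mk : ∀ x : LinearMap.ker g, ((x : pc 𝒜 P s × pc 𝒜 I (s + e)).1 : A) ∈
        pc 𝒜 (P ⊓ cm z I) s := by
      intro x
      obtain ⟨h1, h2⟩ := (mem_pc 𝒜).1 (x : pc 𝒜 P s × pc 𝒜 I (s + e)).1.2
      obtain ⟨h3, h4⟩ := (mem_pc 𝒜).1 (x : pc 𝒜 P s × pc 𝒜 I (s + e)).2.2
      have h5 := x.2
      rw [LinearMap.mem_ker, hg] at h5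
      refine (mem_pc 𝒜).2 ⟨⟨h1, mem_cm.2 ?_⟩, h2⟩
      rw [eq_neg_of_add_eq_zero_left h5]
      exact I.neg_mem h3
    let f : LinearMap.ker g →ₗ[K] pc 𝒜 (P ⊓ cm z I) s :=
      LinearMap.codRestrict _ ((pc 𝒜 P s).subtype.comp
        ((LinearMap.fst K _ _).comp (LinearMap.ker g).subtype)) mk
    have hf1 : ∀ x, (f x : A) = ((x : pc 𝒜 P s × pc 𝒜 I (s + e)).1 : A) := fun x => rfl
    have hinj : Function.Injective f := by
      intro x y hxy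
      have h1 : ((x : pc 𝒜 P s × pc 𝒜 I (s + e)).1 : A)
          = ((y : pc 𝒜 P s × pc 𝒜 I (s + e)).1 : A) := by
        rw [← hf1, ← hf1, hxy]
      have hx := x.2
      have hy := y.2
      rw [LinearMap.mem_ker, hg] at hx hy
      have h2 : ((x : pc 𝒜 P s × pc 𝒜 I (s + e)).2 : A)
          = ((y : pc 𝒜 P s × pc 𝒜 I (s + e)).2 : A) := by
        rw [eq_neg_of_add_eq_zero_right hx, eq_neg_of_add_eq_zero_right hy, h1]
      exact Subtype.ext (Prod.ext (Subtype.ext h1) (Subtype.ext h2))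
    have hsur : Function.Surjective f := by
      rintro ⟨x, hx⟩
      obtain ⟨⟨h1, h2⟩, h3⟩ := (mem_pc 𝒜).1 hx
      have h2' : x * z ∈ I := mem_cm.1 h2
      refine ⟨⟨(⟨x, (mem_pc 𝒜).2 ⟨h1, h3⟩⟩,
        ⟨-(x * z), (mem_pc 𝒜).2 ⟨I.neg_mem h2', ?_⟩⟩), ?_⟩, ?_⟩
      · exact Submodule.neg_mem _ (SetLike.GradedMul.mul_mem h3 hz)
      · rw [LinearMap.mem_ker, hg]
        exact add_neg_cancel _
      · exact Subtype.ext rfl
    exact (LinearEquiv.ofBijective f ⟨hinj, hsur⟩).finrank_eq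
  have h := LinearMap.finrank_range_add_finrank_ker g
  rw [hr, hk, Module.finrank_prod] at h
  change finrank K (pc 𝒜 (I ⊔ mp z P) (s + e)) + _ = _
  rw [h, add_comm]
  rfl

theorem hd_map_lt {I P : Ideal A} (hI : I.IsHomogeneous 𝒜) (hP : P.IsHomogeneous 𝒜) {z : A}
    {e : ℕ} (hz : z ∈ 𝒜 e) {s : ℕ} (h : s < e) :
    hd 𝒜 (I ⊔ mp z P) s = hd 𝒜 I s := by
  unfold hd
  rw [pc_sup 𝒜 hI (map_homog 𝒜 hP hz) s]
  have : pc 𝒜 (mp z P : Ideal A) s = ⊥ := by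
    rw [eq_bot_iff]
    intro x hx
    obtain ⟨h1, h2⟩ := (mem_pc 𝒜).1 hx
    obtain ⟨p, hp, rfl⟩ := mem_mp.1 h1
    rw [Submodule.mem_bot, ← DirectSum.decompose_of_mem_same 𝒜 h2]
    exact DirectSum.coe_decompose_mul_of_right_mem_of_not_le 𝒜 hz (not_le.2 h)
  rw [this, sup_bot_eq]

/-- **The dimension formula**, as functions. -/
theorem hf_map {I P : Ideal A} (hI : I.IsHomogeneous 𝒜) (hP : P.IsHomogeneous 𝒜) {z : A} {e : ℕ}
    (hz : z ∈ 𝒜 e) (s : ℕ) :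
    hf 𝒜 (I ⊔ mp z P) s - hf 𝒜 I s
      = sh e (fun s => hf 𝒜 P s - hf 𝒜 (P ⊓ cm z I) s) s := by
  unfold sh
  split_ifs with h
  · obtain ⟨s, rfl⟩ := Nat.exists_eq_add_of_le' h
    have := hd_map 𝒜 hI hP hz s
    simp only [Nat.add_sub_cancel]
    unfold hf
    have h2 : ((hd 𝒜 (I ⊔ mp z P) (s + e) + hd 𝒜 (P ⊓ cm z I) s : ℕ) : ℝ)
      = ((hd 𝒜 I (s + e) + hd 𝒜 P s : ℕ) : ℝ) := by rw [this]
    push_cast at h2
    linarith
  · rw [hf, hf, hd_map_lt 𝒜 hI hP hz (not_le.1 h), sub_self]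

end Pool.Agent.FLG
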