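import Mathlib

/-!
# Generating functions on (0,1) (MP_ef4bac_al, flags)
-/

set_option autoImplicit false

namespace Pool.Agent.FLG

open Filter Topology

/-- The value at `t` of the generating function of `f`. -/
noncomputable def H (f : ℕ → ℝ) (t : ℝ) : ℝ := ∑' s, f s * t ^ s

/-- Polynomial growth. -/
def Poly (f : ℕ → ℝ) : Prop := ∃ C : ℝ, ∃ m : ℕ, ∀ s, |f s| ≤ C * ((s : ℝ) + 1) ^ m

theorem Poly.of_le {f g : ℕ → ℝ} (hg : Poly g) (h : ∀ s, |f s| ≤ |g s|) : Poly f := by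
  obtain ⟨C, m, hC⟩ := hg
  exact ⟨C, m, fun s => (h s).trans (hC s)⟩

theorem Poly.add {f g : ℕ → ℝ} (hf : Poly f) (hg : Poly g) : Poly (fun s => f s + g s) := by
  obtain ⟨C, m, hC⟩ := hf
  obtain ⟨D, n, hD⟩ := hg
  refine ⟨|C| + |D|, m + n, fun s => ?_⟩
  have h1 : (1 : ℝ) ≤ (s : ℝ) + 1 := by
    have : (0 : ℝ) ≤ s := Nat.cast_nonneg s
    linarith
  have h2 : ((s : ℝ) + 1) ^ m ≤ ((s : ℝ) + 1) ^ (m + n) := pow_le_pow_right₀ h1 (by omega)
  have h3 : ((s : ℝ) + 1) ^ n ≤ ((s : ℝ) + 1) ^ (m + n) := pow_le_pow_right₀ h1 (by omega)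
  have h4 : (0 : ℝ) ≤ ((s : ℝ) + 1) ^ m := by positivity
  have h5 : (0 : ℝ) ≤ ((s : ℝ) + 1) ^ n := by positivity
  calc |f s + g s| ≤ |f s| + |g s| := abs_add_le _ _
    _ ≤ C * ((s : ℝ) + 1) ^ m + D * ((s : ℝ) + 1) ^ n := add_le_add (hC s) (hD s)
    _ ≤ |C| * ((s : ℝ) + 1) ^ m + |D| * ((s : ℝ) + 1) ^ n :=
        add_le_add (mul_le_mul_of_nonneg_right (le_abs_self C) h4)
          (mul_le_mul_of_nonneg_right (le_abs_self D) h5)
    _ ≤ |C| * ((s : ℝ) + 1) ^ (m + n) + |D| * ((s : ℝ) + 1) ^ (m + n) :=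
        add_le_add (mul_le_mul_of_nonneg_left h2 (abs_nonneg C))
          (mul_le_mul_of_nonneg_left h3 (abs_nonneg D))
    _ = (|C| + |D|) * ((s : ℝ) + 1) ^ (m + n) := by ring

theorem Poly.neg {f : ℕ → ℝ} (hf : Poly f) : Poly (fun s => -f s) :=
  hf.of_le fun s => by rw [abs_neg]

theorem Poly.sub {f g : ℕ → ℝ} (hf : Poly f) (hg : Poly g) : Poly (fun s => f s - g s) := by
  simpa [sub_eq_add_neg] using hf.add hg.neg

theorem poly_zero : Poly (fun _ => 0) := ⟨0, 0, fun s => by simp⟩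

theorem Poly.sum {ι : Type*} (S : Finset ι) {f : ι → ℕ → ℝ} (hf : ∀ i ∈ S, Poly (f i)) :
    Poly (fun s => ∑ i ∈ S, f i s) := by
  classical
  induction S using Finset.induction_on with
  | empty => simpa using poly_zero
  | insert a S ha ih =>
    have h1 := (hf a (Finset.mem_insert_self a S)).add
      (ih fun i hi => hf i (Finset.mem_insert_of_mem hi))
    refine h1.of_le fun s => ?_
    rw [Finset.sum_insert ha]

/-- The shift by `e`. -/
def sh (e : ℕ) (f : ℕ → ℝ) : ℕ → ℝ := fun s => if e ≤ s then f (s - e) else 0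

theorem Poly.sh {f : ℕ → ℝ} (hf : Poly f) (e : ℕ) : Poly (sh e f) := by
  obtain ⟨C, m, hC⟩ := hf
  refine ⟨|C|, m, fun s => ?_⟩
  unfold FLG.sh
  split_ifs with h
  · have h0 : (0 : ℝ) ≤ (((s - e : ℕ) : ℝ) + 1) := by positivity
    have h1 : (((s - e : ℕ) : ℝ) + 1) ≤ (s : ℝ) + 1 := by
      have : ((s - e : ℕ) : ℝ) ≤ s := by exact_mod_cast Nat.sub_le s e
      linarith
    calc |f (s - e)| ≤ C * (((s - e : ℕ) : ℝ) + 1) ^ m := hC _
      _ ≤ |C| * (((s - e : ℕ) : ℝ) + 1) ^ m :=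
          mul_le_mul_of_nonneg_right (le_abs_self C) (by positivity)
      _ ≤ |C| * ((s : ℝ) + 1) ^ m :=
          mul_le_mul_of_nonneg_left (pow_le_pow_left₀ h0 h1 m) (abs_nonneg C)
  · rw [abs_zero]
    positivity

theorem Poly.summable {f : ℕ → ℝ} (hf : Poly f) {t : ℝ} (h0 : 0 ≤ t) (h1 : t < 1) :
    Summable fun s => f s * t ^ s := by
  obtain ⟨C, m, hC⟩ := hf
  have hn : ‖t‖ < 1 := by rw [Real.norm_of_nonneg h0]; exact h1
  have hs := summable_pow_mul_geometric_of_norm_lt_one (R := ℝ) m hn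
  -- shift by one
  have hs1 : Summable fun s : ℕ => (((s + 1 : ℕ) : ℝ) ^ m * t ^ (s + 1)) :=
    (summable_nat_add_iff 1).2 hs
  rcases eq_or_lt_of_le h0 with h | h
  · subst h
    apply summable_of_ne_finset_zero (s := {0})
    intro b hb
    have : b ≠ 0 := by simpa using hb
    simp [this]
  · have hs2 : Summable fun s : ℕ => |C| * t⁻¹ * ((((s + 1 : ℕ) : ℝ) ^ m * t ^ (s + 1))) :=
      hs1.mul_left _
    apply Summable.of_norm_bounded hs2
    intro s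
    rw [Real.norm_eq_abs, abs_mul, abs_of_nonneg (pow_nonneg h0 s)]
    calc |f s| * t ^ s ≤ (C * ((s : ℝ) + 1) ^ m) * t ^ s :=
          mul_le_mul_of_nonneg_right (hC s) (pow_nonneg h0 s)
      _ ≤ (|C| * ((s : ℝ) + 1) ^ m) * t ^ s := by
          apply mul_le_mul_of_nonneg_right _ (pow_nonneg h0 s)
          exact mul_le_mul_of_nonneg_right (le_abs_self C) (by positivity)
      _ = |C| * t⁻¹ * ((((s + 1 : ℕ) : ℝ) ^ m * t ^ (s + 1))) := by
          push_cast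
          field_simp
          ring

theorem H_add {f g : ℕ → ℝ} (hf : Poly f) (hg : Poly g) {t : ℝ} (h0 : 0 ≤ t) (h1 : t < 1) :
    H (fun s => f s + g s) t = H f t + H g t := by
  unfold H
  rw [← (hf.summable h0 h1).tsum_add (hg.summable h0 h1)]
  congr 1
  funext s
  ring

theorem H_sub {f g : ℕ → ℝ} (hf : Poly f) (hg : Poly g) {t : ℝ} (h0 : 0 ≤ t) (h1 : t < 1) :
    H (fun s => f s - g s) t = H f t - H g t := by
  unfold H
  rw [← (hf.summable h0 h1).tsum_sub (hg.summable h0 h1)]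
  congr 1
  funext s
  ring

theorem H_zero (t : ℝ) : H (fun _ => 0) t = 0 := by simp [H]

theorem H_sum {ι : Type*} (S : Finset ι) {f : ι → ℕ → ℝ} (hf : ∀ i ∈ S, Poly (f i)) {t : ℝ}
    (h0 : 0 ≤ t) (h1 : t < 1) : H (fun s => ∑ i ∈ S, f i s) t = ∑ i ∈ S, H (f i) t := by
  unfold H
  rw [← Summable.tsum_finsetSum fun i hi => (hf i hi).summable h0 h1]
  congr 1
  funext s
  rw [Finset.sum_mul]

theorem H_mono {f g : ℕ → ℝ} (hf : Poly f) (hg : Poly g) {t : ℝ} (h0 : 0 ≤ t) (h1 : t < 1)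
    (h : ∀ s, f s ≤ g s) : H f t ≤ H g t := by
  unfold H
  exact (hf.summable h0 h1).tsum_le_tsum
    (fun s => mul_le_mul_of_nonneg_right (h s) (pow_nonneg h0 s)) (hg.summable h0 h1)

theorem H_nonneg {f : ℕ → ℝ} {t : ℝ} (h0 : 0 ≤ t) (h : ∀ s, 0 ≤ f s) : 0 ≤ H f t :=
  tsum_nonneg fun s => mul_nonneg (h s) (pow_nonneg h0 s)

theorem H_sh {f : ℕ → ℝ} (hf : Poly f) (e : ℕ) {t : ℝ} (h0 : 0 ≤ t) (h1 : t < 1) :
    H (sh e f) t = t ^ e * H f t := by
  have hs := (hf.sh e).summable h0 h1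
  unfold H
  rw [← hs.sum_add_tsum_nat_add e]
  have hz : ∑ i ∈ Finset.range e, sh e f i * t ^ i = 0 := by
    apply Finset.sum_eq_zero
    intro i hi
    have : ¬ e ≤ i := by simpa using hi
    simp [sh, this]
  rw [hz, zero_add, ← tsum_mul_left]
  congr 1
  funext s
  simp only [sh, Nat.le_add_left, if_true, Nat.add_sub_cancel]
  rw [pow_add]
  ring

theorem H_pos_of {f : ℕ → ℝ} (hf : Poly f) {t : ℝ} (h0 : 0 ≤ t) (h1 : t < 1)
    (h : ∀ s, 0 ≤ f s) (hp : 0 < f 0) : 0 < H f t := by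
  unfold H
  apply (hf.summable h0 h1).tsum_pos (fun s => mul_nonneg (h s) (pow_nonneg h0 s)) 0
  simpa using hp

end Pool.Agent.FLG
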