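import Pool.Agent.Lib_helper19.FLG.Res2

/-!
# Graded algebras with a flag are domains (MP_ef4bac_al)
-/

set_option autoImplicit false
set_option linter.unusedSectionVars false

namespace Pool.Agent.FLG

open DirectSum Module Filter Topology

universe v u

variable {K : Type v} [Field K] {A : Type u} [Ring A] [Algebra K A]
variable (𝒜 : ℕ → Submodule K A) [GradedAlgebra 𝒜] [∀ s, Module.Finite K (𝒜 s)]

/-- A left ideal as a submodule of the free module of rank one. -/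
def toZ (P : Ideal A) : Submodule A (Fin 1 → A) := Submodule.comap (LinearMap.proj 0) P

theorem mem_toZ {P : Ideal A} {f : Fin 1 → A} : f ∈ toZ P ↔ f 0 ∈ P := Iff.rfl

theorem mem_FP0 {s : ℕ} {f : Fin 1 → A} : f ∈ FP 𝒜 (fun _ : Fin 1 => 0) s ↔ f 0 ∈ 𝒜 s := by
  rw [mem_FP]
  constructor
  · intro h
    exact (mem_Bw_le 𝒜 (w := fun _ : Fin 1 => 0) (Nat.zero_le s)).1 (h 0)
  · intro h i
    have : i = 0 := Subsingleton.elim _ _
    subst this
    exact (mem_Bw_le 𝒜 (w := fun _ : Fin 1 => 0) (Nat.zero_le s)).2 h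

theorem toZ_hom {P : Ideal A} (hP : P.IsHomogeneous 𝒜) :
    Hom 𝒜 (fun _ : Fin 1 => 0) (toZ P) := by
  intro f hf s
  rw [mem_toZ] at hf ⊢
  unfold cmp
  rw [if_pos (Nat.zero_le s)]
  exact hP _ hf

theorem zf_toZ (P : Ideal A) (s : ℕ) : zf 𝒜 (fun _ : Fin 1 => 0) (toZ P) s = hf 𝒜 P s := by
  unfold zf hf hd
  have mk : ∀ x : pz 𝒜 (fun _ : Fin 1 => 0) (toZ P) s, (x : Fin 1 → A) 0 ∈ pc 𝒜 P s := by
    intro x
    obtain ⟨h1, h2⟩ := (mem_pz 𝒜).1 x.2
    exact (mem_pc 𝒜).2 ⟨h1, (mem_FP0 𝒜).1 h2⟩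
  let f : pz 𝒜 (fun _ : Fin 1 => 0) (toZ P) s →ₗ[K] pc 𝒜 P s :=
    LinearMap.codRestrict _ ((LinearMap.proj (R := K) (φ := fun _ : Fin 1 => A) 0).comp
      (pz 𝒜 (fun _ : Fin 1 => 0) (toZ P) s).subtype) mk
  have hinj : Function.Injective f := by
    intro x y hxy
    have h1 : (x : Fin 1 → A) 0 = (y : Fin 1 → A) 0 := congrArg Subtype.val hxy
    apply Subtype.ext
    funext i
    have : i = 0 := Subsingleton.elim _ _
    rw [this]
    exact h1
  have hsur : Function.Surjective f := by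
    rintro ⟨x, hx⟩
    obtain ⟨h1, h2⟩ := (mem_pc 𝒜).1 hx
    exact ⟨⟨fun _ => x, (mem_pz 𝒜).2 ⟨h1, (mem_FP0 𝒜).2 h2⟩⟩, rfl⟩
  rw [(LinearEquiv.ofBijective f ⟨hinj, hsur⟩).finrank_eq]

variable {𝒜}

theorem HP_bot (t : ℝ) : HP 𝒜 ⊥ t = 0 := by
  unfold HP
  have : hf 𝒜 ⊥ = fun _ => 0 := by
    funext s
    unfold hf hd
    have : pc 𝒜 ⊥ s = ⊥ := by
      rw [eq_bot_iff]
      intro x hx
      exact ((mem_pc 𝒜).1 hx).1
    rw [this]
    simp
  rw [this, H_zero]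

theorem HP_top_pos [Nontrivial A] (hg : Poly (hf 𝒜 ⊤)) {t : ℝ} (h0 : 0 ≤ t) (h1 : t < 1) :
    0 < HP 𝒜 ⊤ t := by
  refine H_pos_of hg h0 h1 (hf_nonneg 𝒜 ⊤) ?_
  unfold hf hd
  have h2 : (1 : A) ∈ pc 𝒜 ⊤ 0 := (mem_pc 𝒜).2 ⟨Submodule.mem_top, SetLike.GradedOne.one_mem⟩
  have : Nontrivial (pc 𝒜 ⊤ 0) := ⟨⟨⟨1, h2⟩, 0, fun h => one_ne_zero (congrArg Subtype.val h)⟩⟩
  exact Nat.cast_pos.2 Module.finrank_pos

/-- **Homogeneous elements.** -/
theorem homog_domain [IsNoetherianRing A] [Nontrivial A] (hg : Poly (hf 𝒜 ⊤))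
    (h0 : ∀ a ∈ 𝒜 0, ∃ c : K, a = algebraMap K A c) {d : ℕ}
    (gd : ∀ M : ModuleCat.{u} A, CategoryTheory.HasProjectiveDimensionLT M (d + 1))
    (hpure : Pure 𝒜 ⊥) {a b : A} {j : ℕ} (hb : b ∈ 𝒜 j) (hab : a * b = 0) :
    a = 0 ∨ b = 0 := by
  by_contra hne
  push Not at hne
  obtain ⟨ha0, hb0⟩ := hne
  have hN : (cm b ⊥ : Ideal A).IsHomogeneous 𝒜 := comap_homog 𝒜 (Ideal.IsHomogeneous.bot 𝒜) hb
  obtain ⟨q, hq⟩ := exists_poly hg h0 d 1 (fun _ => 0) (toZ (cm b ⊥)) (toZ_hom 𝒜 hN)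
    (gd (ModuleCat.of A (toZ (cm b ⊥))))
  have hq' : ∀ t : ℝ, 0 < t → t < 1 →
      HP 𝒜 (cm b ⊥) t = (q.map (Int.castRingHom ℝ)).eval t * HP 𝒜 ⊤ t := by
    intro t h1 h2
    rw [← hq t h1 h2]
    unfold HP
    congr 1
    funext s
    exact (zf_toZ 𝒜 _ s).symm
  set Q : ℝ → ℝ := fun t => (q.map (Int.castRingHom ℝ)).eval t with hQ
  have hQt : Tendsto Q (𝓝[<] 1) (𝓝 (Q 1)) :=
    ((q.map (Int.castRingHom ℝ)).continuous.tendsto 1).mono_left nhdsWithin_le_nhds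
  have hQ1 : Q 1 = ((q.eval 1 : ℤ) : ℝ) := by
    rw [hQ]
    simp only
    have h1 : (1 : ℝ) = (Int.castRingHom ℝ) 1 := by simp
    rw [h1, Polynomial.eval_map, Polynomial.eval₂_hom]
    simp
  have hratio : ∀ t : ℝ, 0 < t → t < 1 →
      (HP 𝒜 (cm b ⊥) t - HP 𝒜 ⊥ t) / (HP 𝒜 ⊤ t - HP 𝒜 ⊥ t) = Q t := by
    intro t h1 h2
    rw [HP_bot, sub_zero, sub_zero, hq' t h1 h2, mul_div_assoc,
      div_self (HP_top_pos hg h1.le h2).ne', mul_one]
  have hnn : 0 ≤ Q 1 := by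
    refine ge_of_tendsto hQt ?_
    filter_upwards [ev_Ioo] with t ht
    rw [← hratio t ht.1 ht.2]
    refine div_nonneg (sub_nonneg.2 (HP_mono hg bot_le ht.1.le ht.2)) ?_
    rw [HP_bot, sub_zero]
    exact (HP_top_pos hg ht.1.le ht.2).le
  have hpos : 1 ≤ Q 1 := by
    have h1 : Q 1 ≠ 0 := by
      intro h
      have hsm : Sm 𝒜 ⊥ (cm b ⊥) := by
        unfold Sm
        rw [h] at hQt
        refine hQt.congr' ?_
        filter_upwards [ev_Ioo] with t ht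
        exact (hratio t ht.1 ht.2).symm
      have h2 := hpure _ hN bot_le hsm
      have h3 : a ∈ (cm b ⊥ : Ideal A) := mem_cm.2 (by rw [hab]; exact zero_mem _)
      rw [h2] at h3
      exact ha0 h3
    rw [hQ1] at hnn h1 ⊢
    have h2 : (0 : ℤ) ≤ q.eval 1 := by exact_mod_cast hnn
    have h3 : q.eval 1 ≠ 0 := by exact_mod_cast h1
    exact_mod_cast (lt_of_le_of_ne h2 h3.symm : (0 : ℤ) < q.eval 1)
  -- the left ideal `A b`
  have hB : (mp b ⊤ : Ideal A).IsHomogeneous 𝒜 :=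
    map_homog 𝒜 (Ideal.IsHomogeneous.top 𝒜) hb
  have hratio2 : ∀ t : ℝ, 0 < t → t < 1 →
      (HP 𝒜 (mp b ⊤) t - HP 𝒜 ⊥ t) / (HP 𝒜 ⊤ t - HP 𝒜 ⊥ t) = t ^ j * (1 - Q t) := by
    intro t h1 h2
    have h3 := HP_map hg (Ideal.IsHomogeneous.bot 𝒜) (Ideal.IsHomogeneous.top 𝒜) hb h1.le h2
    rw [bot_sup_eq, top_inf_eq, hq' t h1 h2] at h3
    rw [h3, HP_bot, sub_zero]
    have h4 := (HP_top_pos hg h1.le h2).ne'
    field_simp
    rfl
  have hlim : Tendsto (fun t => t ^ j * (1 - Q t)) (𝓝[<] 1) (𝓝 (1 * (1 - Q 1))) :=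
    (tendsto_pow_one j).mul (tendsto_const_nhds.sub hQt)
  have hnn2 : 0 ≤ 1 * (1 - Q 1) := by
    refine ge_of_tendsto hlim ?_
    filter_upwards [ev_Ioo] with t ht
    rw [← hratio2 t ht.1 ht.2]
    refine div_nonneg (sub_nonneg.2 (HP_mono hg bot_le ht.1.le ht.2)) ?_
    rw [HP_bot, sub_zero]
    exact (HP_top_pos hg ht.1.le ht.2).le
  have hz : 1 * (1 - Q 1) = 0 := le_antisymm (by linarith) hnn2
  rw [hz] at hlim
  have hsm : Sm 𝒜 ⊥ (mp b ⊤) := by
    unfold Sm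
    refine hlim.congr' ?_
    filter_upwards [ev_Ioo] with t ht
    exact (hratio2 t ht.1 ht.2).symm
  have h2 := hpure _ hB bot_le hsm
  have h3 : b ∈ (mp b ⊤ : Ideal A) := mem_mp.2 ⟨1, Submodule.mem_top, one_mul b⟩
  rw [h2] at h3
  exact hb0 h3

omit [∀ s, Module.Finite K (𝒜 s)] in
/-- From homogeneous elements to all elements. -/
theorem all_domain [Nontrivial A]
    (h : ∀ (a b : A) (i j : ℕ), a ∈ 𝒜 i → b ∈ 𝒜 j → a * b = 0 → a = 0 ∨ b = 0) :
    IsDomain A := by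
  classical
  have hnz : ∀ a b : A, a * b = 0 → a = 0 ∨ b = 0 := by
    intro a b hab
    by_contra hne
    push Not at hne
    obtain ⟨ha0, hb0⟩ := hne
    have hsup : ∀ x : A, x ≠ 0 → (decompose 𝒜 x).support.Nonempty := by
      intro x hx
      rw [Finset.nonempty_iff_ne_empty]
      intro hs
      apply hx
      rw [← DirectSum.sum_support_decompose 𝒜 x, hs, Finset.sum_empty]
    have hA := hsup a ha0
    have hB := hsup b hb0
    set i := (decompose 𝒜 a).support.max' hA with hi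
    set j := (decompose 𝒜 b).support.max' hB with hj
    have h1 : (decompose 𝒜 (a * b) (i + j) : A) = (decompose 𝒜 a i : A) * (decompose 𝒜 b j : A) := by
      rw [DirectSum.decompose_mul, DirectSum.coe_mul_apply]
      rw [Finset.sum_eq_single (i, j)]
      · rintro ⟨k, l⟩ hkl hne
        simp only [Finset.mem_filter, Finset.mem_product] at hkl
        obtain ⟨⟨hk, hl⟩, hs⟩ := hkl
        have h2 : k ≤ i := Finset.le_max' _ _ hk
        have h3 : l ≤ j := Finset.le_max' _ _ hl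
        exfalso
        apply hne
        have h4 : k = i := by omega
        have h5 : l = j := by omega
        rw [h4, h5]
      · intro hnm
        exfalso
        apply hnm
        simp only [Finset.mem_filter, Finset.mem_product]
        exact ⟨⟨Finset.max'_mem _ _, Finset.max'_mem _ _⟩, trivial⟩
    rw [hab, DirectSum.decompose_zero] at h1
    have h2 : (decompose 𝒜 a i : A) * (decompose 𝒜 b j : A) = 0 := by
      rw [← h1]
      rfl
    rcases h _ _ i j (SetLike.coe_mem _) (SetLike.coe_mem _) h2 with h3 | h3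
    · have := Finset.max'_mem _ hA
      rw [DFinsupp.mem_support_toFun] at this
      exact this (Subtype.ext h3)
    · have := Finset.max'_mem _ hB
      rw [DFinsupp.mem_support_toFun] at this
      exact this (Subtype.ext h3)
  have : NoZeroDivisors A := ⟨fun {a b} hab => hnz a b hab⟩
  exact NoZeroDivisors.to_isDomain A

/-- The members of the flag. -/
def Ik (z : ℕ → A) (k : ℕ) : Ideal A := Ideal.span (z '' {i | i < k})

theorem Ik_zero (z : ℕ → A) : Ik z 0 = ⊥ := by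
  unfold Ik
  have : z '' {i | i < 0} = ∅ := by simp
  rw [this, Ideal.span_empty]

theorem Ik_succ (z : ℕ → A) (k : ℕ) : Ik z (k + 1) = Ik z k ⊔ mp (z k) ⊤ := by
  unfold Ik
  have h1 : z '' {i | i < k + 1} = z '' {i | i < k} ∪ {z k} := by
    ext x
    simp only [Set.mem_image, Set.mem_setOf_eq, Set.mem_union, Set.mem_singleton_iff]
    constructor
    · rintro ⟨i, hi, rfl⟩
      rcases Nat.lt_succ_iff_lt_or_eq.1 hi with h | h
      · exact Or.inl ⟨i, h, rfl⟩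
      · exact Or.inr (by rw [h])
    · rintro (⟨i, hi, rfl⟩ | rfl)
      · exact ⟨i, by omega, rfl⟩
      · exact ⟨k, by omega, rfl⟩
  rw [h1, Ideal.span_union]
  congr 1
  ext x
  rw [Ideal.mem_span_singleton', mem_mp]
  simp

variable (𝒜) in
/-- **Flags.** -/
theorem flag_domain [IsNoetherianRing A] [Nontrivial A]
    (h0 : ∀ a ∈ 𝒜 0, ∃ c : K, a = algebraMap K A c)
    (hgrow : ∃ C m : ℕ, ∀ s, finrank K (𝒜 s) ≤ C * (s + 1) ^ m) {d : ℕ}
    (gd : ∀ M : ModuleCat.{u} A, CategoryTheory.HasProjectiveDimensionLT M (d + 1))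
    (r : ℕ) (z : ℕ → A) (hz : ∀ k < r, ∃ e, 0 < e ∧ z k ∈ 𝒜 e)
    (hflag : ∀ k < r, ∀ a, a * z k ∈ Ik z k ↔ a ∈ Ik z k)
    (hprime : ∀ a b, a * b ∈ Ik z r → a ∈ Ik z r ∨ b ∈ Ik z r) : IsDomain A := by
  have hg : Poly (hf 𝒜 ⊤) := by
    obtain ⟨C, m, hC⟩ := hgrow
    refine ⟨C, m, fun s => ?_⟩
    rw [abs_of_nonneg (hf_nonneg 𝒜 ⊤ s)]
    unfold hf hd
    have h1 : pc 𝒜 ⊤ s = 𝒜 s := by
      ext x
      simp [mem_pc]
    rw [h1]
    exact_mod_cast hC s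
  have hhom : ∀ k ≤ r, (Ik z k).IsHomogeneous 𝒜 := by
    intro k hk
    apply Ideal.homogeneous_span
    rintro x ⟨i, hi, rfl⟩
    obtain ⟨e, -, he⟩ := hz i (lt_of_lt_of_le hi hk)
    exact ⟨e, he⟩
  have hD : ∀ k ≤ r, ∀ t : ℝ, 0 < t → t < 1 → 0 < HP 𝒜 ⊤ t - HP 𝒜 (Ik z k) t := by
    intro k
    induction k with
    | zero =>
      intro _ t h1 h2
      rw [Ik_zero, HP_bot, sub_zero]
      exact HP_top_pos hg h1.le h2
    | succ k ih =>
      intro hk t h1 h2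
      obtain ⟨e, he, hze⟩ := hz k (by omega)
      have h3 := HP_map hg (hhom k (by omega)) (Ideal.IsHomogeneous.top 𝒜) hze h1.le h2
      have h4 : (⊤ : Ideal A) ⊓ cm (z k) (Ik z k) = Ik z k := by
        rw [top_inf_eq]
        ext a
        rw [mem_cm]
        exact hflag k (by omega) a
      rw [h4] at h3
      rw [Ik_succ]
      have h5 : HP 𝒜 ⊤ t - HP 𝒜 (Ik z k ⊔ mp (z k) ⊤) t
          = (1 - t ^ e) * (HP 𝒜 ⊤ t - HP 𝒜 (Ik z k) t) := by linear_combination -h3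
      rw [h5]
      exact mul_pos (sub_pos.2 (pow_lt_one₀ h1.le h2 he.ne')) (ih (by omega) t h1 h2)
  have hpure : ∀ j ≤ r, Pure 𝒜 (Ik z (r - j)) := by
    intro j
    induction j with
    | zero =>
      intro _
      rw [Nat.sub_zero]
      exact pure_base hg (hhom r le_rfl) hprime (hD r le_rfl)
    | succ j ih =>
      intro hj
      have h1 : r - j = (r - (j + 1)) + 1 := by omega
      have h2 := ih (by omega)
      rw [h1, Ik_succ] at h2
      obtain ⟨e, he, hze⟩ := hz (r - (j + 1)) (by omega)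
      exact pure_step hg (hhom _ (by omega)) he hze (hflag _ (by omega)) (hD _ (by omega)) h2
  have hp0 := hpure r le_rfl
  rw [Nat.sub_self, Ik_zero] at hp0
  exact all_domain (𝒜 := 𝒜) fun a b i j _ hb hab => homog_domain hg h0 gd hp0 hb hab

end Pool.Agent.FLG
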