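import Pool.Agent.Lib_helper19.FLG.Main

/-!
# Ordered monomial bases and flags (MP_ef4bac_al)
-/

set_option autoImplicit false
set_option linter.unusedSectionVars false

namespace Pool.Agent.FLG

open DirectSum Module Filter Topology

universe v u

variable {K : Type v} [Field K] {A : Type u} [Ring A] [Algebra K A]

/-- The ordered monomial with a given exponent vector. -/
def mon {n : ℕ} (z : Fin n → A) (a : Fin n → ℕ) : A := (List.ofFn fun i => z i ^ a i).prod

theorem mon_succ {n : ℕ} (z : Fin (n + 1) → A) (a : Fin (n + 1) → ℕ) :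
    mon z a = mon (fun i => z i.castSucc) (fun i => a i.castSucc)
      * z (Fin.last n) ^ a (Fin.last n) := by
  unfold mon
  rw [List.ofFn_succ', List.concat_eq_append, List.prod_append]
  simp

theorem mon_mul {n : ℕ} (z : Fin n → A) (a : Fin n → ℕ) (m : Fin n)
    (ha : ∀ j, m < j → a j = 0) : mon z a * z m = mon z (a + Pi.single m 1) := by
  induction n with
  | zero => exact m.elim0
  | succ n ih =>
    rw [mon_succ, mon_succ z (a + Pi.single m 1)]
    rcases Fin.eq_castSucc_or_eq_last m with ⟨m', rfl⟩ | rfl
    · have h1 : a (Fin.last n) = 0 := ha _ (Fin.castSucc_lt_last m')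
      have h2 : (a + Pi.single m'.castSucc 1 : Fin (n + 1) → ℕ) (Fin.last n) = 0 := by
        rw [Pi.add_apply, h1, Pi.single_eq_of_ne (Fin.castSucc_lt_last m').ne', add_zero]
      rw [h1, h2, pow_zero, mul_one, mul_one]
      rw [ih (fun i => z i.castSucc) (fun i => a i.castSucc) m'
        (fun j hj => ha _ (Fin.castSucc_lt_castSucc_iff.2 hj))]
      congr 1
      funext i
      rw [Pi.add_apply, Pi.add_apply]
      congr 1
      by_cases h : i = m'
      · rw [h, Pi.single_eq_same, Pi.single_eq_same]
      · rw [Pi.single_eq_of_ne h, Pi.single_eq_of_ne (fun h' => h (Fin.castSucc_injective _ h'))]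
    · have h2 : (a + Pi.single (Fin.last n) 1 : Fin (n + 1) → ℕ) (Fin.last n)
          = a (Fin.last n) + 1 := by
        rw [Pi.add_apply, Pi.single_eq_same]
      have h3 : (fun i : Fin n => (a + Pi.single (Fin.last n) 1 : Fin (n + 1) → ℕ) i.castSucc)
          = fun i => a i.castSucc := by
        funext i
        rw [Pi.add_apply, Pi.single_eq_of_ne (Fin.castSucc_lt_last i).ne, add_zero]
      rw [h2, h3, mul_assoc, pow_succ]

/-- The left ideal generated by the variables of index at least `k`. -/
def J {n : ℕ} (z : Fin n → A) (k : ℕ) : Ideal A := Ideal.span (z '' {m | k ≤ m.val})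

variable (K) in
/-- The span of the ordered monomials involving a variable of index at least `k`. -/
def Sp {n : ℕ} (z : Fin n → A) (k : ℕ) : Submodule K A :=
  Submodule.span K (mon z '' {a | ∃ m : Fin n, k ≤ m.val ∧ 0 < a m})

theorem J_mono {n : ℕ} (z : Fin n → A) {k l : ℕ} (h : k ≤ l) : J z l ≤ J z k :=
  Ideal.span_mono (Set.image_mono fun _ hm => le_trans h hm)

theorem Sp_mono {n : ℕ} (z : Fin n → A) {k l : ℕ} (h : k ≤ l) : Sp K z l ≤ Sp K z k :=
  Submodule.span_mono (Set.image_mono fun _ ⟨m, hm, ha⟩ => ⟨m, le_trans h hm, ha⟩)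

theorem mem_J {n : ℕ} (z : Fin n → A) {k : ℕ} {m : Fin n} (h : k ≤ m.val) : z m ∈ J z k :=
  Ideal.subset_span ⟨m, h, rfl⟩

/-- A monomial factors through its last variable. -/
theorem mon_factor {n : ℕ} (z : Fin n → A) (a : Fin n → ℕ) (m : Fin n) (hm : 0 < a m) :
    ∃ j : Fin n, m ≤ j ∧ ∃ a' : Fin n → ℕ, mon z a = mon z a' * z j := by
  classical
  set s : Finset (Fin n) := Finset.univ.filter fun j => 0 < a j with hs
  have hne : s.Nonempty := ⟨m, by rw [hs, Finset.mem_filter]; exact ⟨Finset.mem_univ _, hm⟩⟩
  set j := s.max' hne with hj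
  have hjs : j ∈ s := Finset.max'_mem _ _
  have hj0 : 0 < a j := (Finset.mem_filter.1 hjs).2
  refine ⟨j, Finset.le_max' _ _ (by rw [hs, Finset.mem_filter]; exact ⟨Finset.mem_univ _, hm⟩),
    Function.update a j (a j - 1), ?_⟩
  rw [mon_mul z (Function.update a j (a j - 1)) j]
  · congr 1
    funext i
    rw [Pi.add_apply]
    by_cases h : i = j
    · rw [h, Function.update_self, Pi.single_eq_same]
      omega
    · rw [Function.update_of_ne h, Pi.single_eq_of_ne h, add_zero]
  · intro i hi
    rw [Function.update_of_ne hi.ne']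
    by_contra hc
    have : i ∈ s := by
      rw [hs, Finset.mem_filter]
      exact ⟨Finset.mem_univ _, Nat.pos_of_ne_zero hc⟩
    exact absurd (Finset.le_max' _ _ this) (not_le.2 hi)

theorem Sp_le_J {n : ℕ} (z : Fin n → A) (k : ℕ) {x : A} (hx : x ∈ Sp K z k) : x ∈ J z k := by
  have : Sp K z k ≤ (J z k).restrictScalars K := by
    unfold Sp
    rw [Submodule.span_le]
    rintro _ ⟨a, ⟨m, hm, ha⟩, rfl⟩
    obtain ⟨j, hj, a', h⟩ := mon_factor z a m ha
    rw [h]
    exact Ideal.mul_mem_left _ _ (mem_J z (le_trans hm hj))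
  exact this hx

theorem J_le_Sp {n : ℕ} (z : Fin n → A)
    (hsp : ⊤ ≤ Submodule.span K (Set.range (mon z)))
    (hst : ∀ i j : Fin n, i < j → z j * z i ∈ J z (i.val + 1)) (k : ℕ) {x : A}
    (hx : x ∈ J z k) : x ∈ Sp K z k := by
  have key : ∀ j : ℕ, ∀ k : ℕ, n ≤ j + k → ∀ x ∈ J z k, x ∈ Sp K z k := by
    intro j
    induction j with
    | zero =>
      intro k hk x hx
      have h1 : J z k = ⊥ := by
        unfold J
        rw [Ideal.span_eq_bot]
        rintro _ ⟨m, hm, rfl⟩
        have h1 : k ≤ m.val := hm
        have := m.isLt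
        omega
      rw [h1] at hx
      rw [(Submodule.mem_bot A).1 hx]
      exact zero_mem _
    | succ j ih =>
      intro k hk x hx
      have ih' := ih (k + 1) (by omega)
      -- monomials times generators
      have hmon : ∀ (a : Fin n → ℕ) (m : Fin n), k ≤ m.val → mon z a * z m ∈ Sp K z k := by
        intro a m hm
        rcases Nat.lt_or_ge k m.val with h | h
        · exact Sp_mono z (Nat.le_succ k) (ih' _ (Ideal.mul_mem_left _ _ (mem_J z h)))
        · have hkm : m.val = k := le_antisymm h hm
          by_cases hc : ∀ l, m < l → a l = 0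
          · rw [mon_mul z a m hc]
            refine Submodule.subset_span ⟨_, ⟨m, hm, ?_⟩, rfl⟩
            rw [Pi.add_apply, Pi.single_eq_same]
            omega
          · push Not at hc
            obtain ⟨l, hl, hal⟩ := hc
            obtain ⟨q, hq, a', hf⟩ := mon_factor z a l (Nat.pos_of_ne_zero hal)
            rw [hf, mul_assoc]
            have h1 := hst m q (lt_of_lt_of_le hl hq)
            rw [hkm] at h1
            exact Sp_mono z (Nat.le_succ k) (ih' _ (Ideal.mul_mem_left _ _ h1))
      have hall : ∀ (y : A) (m : Fin n), k ≤ m.val → y * z m ∈ Sp K z k := by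
        intro y m hm
        have hy : y ∈ Submodule.span K (Set.range (mon z)) := hsp Submodule.mem_top
        induction hy using Submodule.span_induction with
        | mem y hy =>
          obtain ⟨a, rfl⟩ := hy
          exact hmon a m hm
        | zero => rw [zero_mul]; exact zero_mem _
        | add y y' _ _ h1 h2 => rw [add_mul]; exact add_mem h1 h2
        | smul c y _ h1 => rw [smul_mul_assoc]; exact Submodule.smul_mem _ _ h1
      unfold J at hx
      induction hx using Submodule.span_induction with
      | mem x hx =>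
        obtain ⟨m, hm, rfl⟩ := hx
        have := hall 1 m hm
        rwa [one_mul] at this
      | zero => exact zero_mem _
      | add x y _ _ h1 h2 => exact add_mem h1 h2
      | smul c x hx' _ =>
        -- redo through the ideal
        clear hk
        have h3 : ∀ w ∈ Ideal.span (z '' {m | k ≤ m.val}), ∀ c : A, c * w ∈ Sp K z k := by
          intro w hw
          induction hw using Submodule.span_induction with
          | mem w hw =>
            obtain ⟨m, hm, rfl⟩ := hw
            intro c
            exact hall c m hm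
          | zero => intro c; rw [mul_zero]; exact zero_mem _
          | add x y _ _ h1 h2 => intro c; rw [mul_add]; exact add_mem (h1 c) (h2 c)
          | smul d w _ h => intro c; rw [smul_eq_mul, ← mul_assoc]; exact h _
        exact h3 x hx' c
  exact key n k (by omega) x hx

/-- The flag condition from the ordered basis. -/
theorem flag_of_basis {n : ℕ} (z : Fin n → A)
    (hli : LinearIndependent K (mon z))
    (hsp : ⊤ ≤ Submodule.span K (Set.range (mon z)))
    (hst : ∀ i j : Fin n, i < j → z j * z i ∈ J z (i.val + 1)) (k : Fin n) (y : A) :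
    y * z k ∈ J z (k.val + 1) ↔ y ∈ J z (k.val + 1) := by
  constructor
  · intro hy
    -- split `y`
    set U : Set (Fin n → ℕ) := {a | ∃ m : Fin n, k.val + 1 ≤ m.val ∧ 0 < a m} with hU
    have hy1 : y ∈ Submodule.span K (mon z '' U) ⊔ Submodule.span K (mon z '' Uᶜ) := by
      rw [← Submodule.span_union, ← Set.image_union, Set.union_compl_self, Set.image_univ]
      exact hsp Submodule.mem_top
    obtain ⟨s, hs, t, ht, rfl⟩ := Submodule.mem_sup.1 hy1
    have hsJ : s ∈ J z (k.val + 1) := Sp_le_J z _ hs
    have hkJ : ∀ w ∈ J z (k.val + 1), w * z k ∈ J z (k.val + 1) := by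
      intro w hw
      unfold J at hw
      induction hw using Submodule.span_induction with
      | mem w hw =>
        obtain ⟨m, hm, rfl⟩ := hw
        exact hst k m hm
      | zero => rw [zero_mul]; exact zero_mem _
      | add x y _ _ h1 h2 => rw [add_mul]; exact add_mem h1 h2
      | smul c x _ h => rw [smul_eq_mul, mul_assoc]; exact Ideal.mul_mem_left _ _ h
    have htz : t * z k ∈ J z (k.val + 1) := by
      rw [add_mul] at hy
      exact (Submodule.add_mem_iff_right _ (hkJ s hsJ)).1 hy
    have htS : t * z k ∈ Submodule.span K (mon z '' U) := J_le_Sp z hsp hst _ htz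
    -- `t z_k` lies in the other span
    obtain ⟨f, hf, rfl⟩ := (Finsupp.mem_span_image_iff_linearCombination K).1 ht
    have hfz : ∀ a ∈ f.support, ∀ m : Fin n, k < m → a m = 0 := by
      intro a ha m hm
      have h1 : a ∈ Uᶜ := hf ha
      by_contra hc
      exact h1 ⟨m, hm, Nat.pos_of_ne_zero hc⟩
    have hprod : Finsupp.linearCombination K (mon z) f * z k
        = Finsupp.linearCombination K (mon z)
          (f.mapDomain fun a => a + Pi.single k 1) := by
      rw [Finsupp.linearCombination_mapDomain, Finsupp.linearCombination_apply,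
        Finsupp.linearCombination_apply, Finsupp.sum, Finsupp.sum, Finset.sum_mul]
      refine Finset.sum_congr rfl fun a ha => ?_
      rw [smul_mul_assoc, Function.comp_apply, mon_mul z a k (hfz a ha)]
    have hmem : Finsupp.linearCombination K (mon z)
        (f.mapDomain fun a => a + Pi.single k 1) ∈ Submodule.span K (mon z '' Uᶜ) := by
      refine (Finsupp.mem_span_image_iff_linearCombination K).2 ⟨_, ?_, rfl⟩
      rw [Finsupp.mem_supported]
      intro b hb
      have h1 := Finsupp.mapDomain_support hb
      rw [Finset.mem_image] at h1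
      obtain ⟨a, ha, rfl⟩ := h1
      rintro ⟨m, hm, hpos⟩
      have h2 : k < m := hm
      rw [Pi.add_apply, hfz a ha m h2, Pi.single_eq_of_ne h2.ne'] at hpos
      exact absurd hpos (by simp)
    have hdis := hli.disjoint_span_image (disjoint_compl_right (a := U))
    rw [hprod] at htS
    have hz0 : Finsupp.linearCombination K (mon z)
        (f.mapDomain fun a => a + Pi.single k 1) = 0 :=
      (Submodule.disjoint_def.1 hdis) _ htS hmem
    have hf0 : f.mapDomain (fun a => a + Pi.single k 1) = 0 := by
      have h1 : Function.Injective (Finsupp.linearCombination K (mon z)) := hli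
      exact h1 (by rw [hz0, map_zero])
    have hf00 : f = 0 := by
      have h1 : Function.Injective fun a : Fin n → ℕ => a + Pi.single k 1 :=
        fun a b h => add_right_cancel h
      exact Finsupp.mapDomain_injective h1 (by rw [hf0, Finsupp.mapDomain_zero])
    rw [hf00, map_zero, add_zero]
    exact hsJ
  · intro hw
    unfold J at hw
    induction hw using Submodule.span_induction with
    | mem w hw =>
      obtain ⟨m, hm, rfl⟩ := hw
      exact hst k m hm
    | zero => rw [zero_mul]; exact zero_mem _
    | add x y _ _ h1 h2 => rw [add_mul]; exact add_mem h1 h2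
    | smul c x _ h => rw [smul_eq_mul, mul_assoc]; exact Ideal.mul_mem_left _ _ h

/-- The augmentation ideal is completely prime. -/
theorem prime_of_basis (𝒜 : ℕ → Submodule K A) [GradedAlgebra 𝒜] {n : ℕ} (z : Fin n → A)
    (h0 : ∀ a ∈ 𝒜 0, ∃ c : K, a = algebraMap K A c)
    (hz : ∀ k, ∃ e, 0 < e ∧ z k ∈ 𝒜 e)
    (hsp : ⊤ ≤ Submodule.span K (Set.range (mon z))) (a b : A) (hab : a * b ∈ J z 0) :
    a ∈ J z 0 ∨ b ∈ J z 0 := by
  classical
  have hproj : ∀ x ∈ J z 0, (decompose 𝒜 x 0 : A) = 0 := by
    intro x hx
    unfold J at hx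
    have h3 : ∀ w ∈ Ideal.span (z '' {m | 0 ≤ m.val}), ∀ c : A,
        (decompose 𝒜 (c * w) 0 : A) = 0 := by
      intro w hw
      induction hw using Submodule.span_induction with
      | mem w hw =>
        obtain ⟨m, hm, rfl⟩ := hw
        intro c
        obtain ⟨e, he, hze⟩ := hz m
        exact DirectSum.coe_decompose_mul_of_right_mem_of_not_le 𝒜 hze (by omega)
      | zero => intro c; rw [mul_zero, decompose_zero]; rfl
      | add x y _ _ h1 h2 =>
        intro c
        rw [mul_add, decompose_add, DirectSum.add_apply, Submodule.coe_add, h1 c, h2 c, add_zero]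
      | smul d w _ h => intro c; rw [smul_eq_mul, ← mul_assoc]; exact h _
    have := h3 x hx 1
    rwa [one_mul] at this
  have hconv : ∀ x : A, (decompose 𝒜 x 0 : A) = 0 → x ∈ J z 0 := by
    intro x hx
    set U : Set (Fin n → ℕ) := {a | ∃ m : Fin n, 0 ≤ m.val ∧ 0 < a m} with hU
    have hy1 : x ∈ Submodule.span K (mon z '' U) ⊔ Submodule.span K (mon z '' Uᶜ) := by
      rw [← Submodule.span_union, ← Set.image_union, Set.union_compl_self, Set.image_univ]
      exact hsp Submodule.mem_top
    obtain ⟨s, hs, t, ht, rfl⟩ := Submodule.mem_sup.1 hy1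
    have hsJ : s ∈ J z 0 := Sp_le_J z _ hs
    have hUc : mon z '' Uᶜ ⊆ {1} := by
      rintro _ ⟨a, ha, rfl⟩
      have h1 : ∀ i, a i = 0 := by
        intro i
        by_contra hc
        exact ha ⟨i, Nat.zero_le _, Nat.pos_of_ne_zero hc⟩
      rw [Set.mem_singleton_iff]
      unfold mon
      apply List.prod_eq_one
      intro y hy
      rw [List.mem_ofFn] at hy
      obtain ⟨i, rfl⟩ := hy
      rw [h1 i, pow_zero]
    have ht1 := Submodule.span_mono hUc ht
    obtain ⟨c, rfl⟩ := Submodule.mem_span_singleton.1 ht1
    have h1 : (decompose 𝒜 (s + c • (1 : A)) 0 : A) = c • (1 : A) := by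
      rw [decompose_add, DirectSum.add_apply, Submodule.coe_add, hproj s hsJ, zero_add]
      have h2 : c • (1 : A) ∈ 𝒜 0 := Submodule.smul_mem _ _ SetLike.GradedOne.one_mem
      exact DirectSum.decompose_of_mem_same 𝒜 h2
    rw [h1] at hx
    rw [hx, add_zero]
    exact hsJ
  have h1 := hproj _ hab
  -- degree zero component of a product
  have h2 : (decompose 𝒜 (a * b) 0 : A) = (decompose 𝒜 a 0 : A) * (decompose 𝒜 b 0 : A) := by
    have := (GradedRing.projZeroRingHom 𝒜).map_mul a b
    simpa [GradedRing.projZeroRingHom_apply] using this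
  rw [h1] at h2
  obtain ⟨c, hc⟩ := h0 _ (SetLike.coe_mem (decompose 𝒜 a 0))
  rw [hc] at h2
  by_cases hc0 : c = 0
  · left
    apply hconv
    rw [hc, hc0, map_zero]
  · right
    apply hconv
    have h3 : algebraMap K A c⁻¹ * (algebraMap K A c * (decompose 𝒜 b 0 : A)) = 0 := by
      rw [← h2, mul_zero]
    rwa [← mul_assoc, ← map_mul, inv_mul_cancel₀ hc0, map_one, one_mul] at h3

end Pool.Agent.FLG
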