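import Pool.Agent.Lib_helper19.FLG.Small

/-!
# Finite free resolutions of homogeneous submodules of graded free modules (MP_ef4bac_al)
-/

set_option autoImplicit false
set_option linter.unusedSectionVars false

namespace Pool.Agent.FLG

open DirectSum Module Filter Topology

universe v u

variable {K : Type v} [Field K] {A : Type u} [Ring A] [Algebra K A]
variable (𝒜 : ℕ → Submodule K A) [GradedAlgebra 𝒜]

/-- The piece of degree `s` of the `i`-th coordinate. -/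
def Bw {m : ℕ} (w : Fin m → ℕ) (s : ℕ) (i : Fin m) : Submodule K A :=
  if w i ≤ s then 𝒜 (s - w i) else ⊥

/-- The piece of degree `s` of the free module with generators of degrees `w`. -/
def FP {m : ℕ} (w : Fin m → ℕ) (s : ℕ) : Submodule K (Fin m → A) where
  carrier := {f | ∀ i, f i ∈ Bw 𝒜 w s i}
  add_mem' := fun hf hg i => add_mem (hf i) (hg i)
  zero_mem' := fun i => zero_mem _
  smul_mem' := fun c _ hf i => Submodule.smul_mem _ c (hf i)

theorem mem_FP {m : ℕ} {w : Fin m → ℕ} {s : ℕ} {f : Fin m → A} :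
    f ∈ FP 𝒜 w s ↔ ∀ i, f i ∈ Bw 𝒜 w s i := Iff.rfl

theorem mem_Bw_le {m : ℕ} {w : Fin m → ℕ} {s : ℕ} {i : Fin m} (h : w i ≤ s) {x : A} :
    x ∈ Bw 𝒜 w s i ↔ x ∈ 𝒜 (s - w i) := by simp [Bw, h]

theorem mem_Bw_nle {m : ℕ} {w : Fin m → ℕ} {s : ℕ} {i : Fin m} (h : ¬ w i ≤ s) {x : A} :
    x ∈ Bw 𝒜 w s i ↔ x = 0 := by simp [Bw, h]

/-- The component of degree `s`. -/
noncomputable def cmp {m : ℕ} (w : Fin m → ℕ) (s : ℕ) (f : Fin m → A) : Fin m → A :=
  fun i => if w i ≤ s then (decompose 𝒜 (f i) (s - w i) : A) else 0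

theorem cmp_mem {m : ℕ} (w : Fin m → ℕ) (s : ℕ) (f : Fin m → A) : cmp 𝒜 w s f ∈ FP 𝒜 w s := by
  intro i
  unfold cmp
  split_ifs with h
  · exact (mem_Bw_le 𝒜 h).2 (SetLike.coe_mem _)
  · exact zero_mem _

theorem cmp_zero {m : ℕ} (w : Fin m → ℕ) (s : ℕ) : cmp 𝒜 w s 0 = 0 := by
  funext i
  simp [cmp]

theorem cmp_add {m : ℕ} (w : Fin m → ℕ) (s : ℕ) (f g : Fin m → A) :
    cmp 𝒜 w s (f + g) = cmp 𝒜 w s f + cmp 𝒜 w s g := by
  funext i
  unfold cmp
  simp only [Pi.add_apply]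
  split_ifs with h
  · rw [DirectSum.decompose_add, DirectSum.add_apply, Submodule.coe_add]
  · simp

theorem cmp_sum {m : ℕ} (w : Fin m → ℕ) (s : ℕ) {ι : Type*} (S : Finset ι)
    (f : ι → Fin m → A) : cmp 𝒜 w s (∑ j ∈ S, f j) = ∑ j ∈ S, cmp 𝒜 w s (f j) := by
  classical
  induction S using Finset.induction_on with
  | empty => simp [cmp_zero]
  | insert a S ha ih => rw [Finset.sum_insert ha, Finset.sum_insert ha, cmp_add, ih]

theorem cmp_self {m : ℕ} {w : Fin m → ℕ} {s : ℕ} {f : Fin m → A} (hf : f ∈ FP 𝒜 w s) :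
    cmp 𝒜 w s f = f := by
  funext i
  unfold cmp
  split_ifs with h
  · exact DirectSum.decompose_of_mem_same 𝒜 ((mem_Bw_le 𝒜 h).1 (hf i))
  · exact ((mem_Bw_nle 𝒜 h).1 (hf i)).symm

theorem cmp_other {m : ℕ} {w : Fin m → ℕ} {s s' : ℕ} {f : Fin m → A} (hf : f ∈ FP 𝒜 w s)
    (hs : s' ≠ s) : cmp 𝒜 w s' f = 0 := by
  funext i
  unfold cmp
  split_ifs with h
  · by_cases h2 : w i ≤ s
    · have h3 := (mem_Bw_le 𝒜 h2).1 (hf i)
      exact DirectSum.decompose_of_mem_ne 𝒜 h3 (by omega)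
    · rw [(mem_Bw_nle 𝒜 h2).1 (hf i)]
      simp
  · rfl

/-- Components of `a • g`, `g` homogeneous. -/
theorem cmp_smul {m : ℕ} {w : Fin m → ℕ} {s d : ℕ} {g : Fin m → A} (hg : g ∈ FP 𝒜 w d) (a : A) :
    cmp 𝒜 w s (a • g) = (if d ≤ s then (decompose 𝒜 a (s - d) : A) else 0) • g := by
  funext i
  unfold cmp
  simp only [Pi.smul_apply, smul_eq_mul]
  by_cases h2 : w i ≤ d
  · have h3 := (mem_Bw_le 𝒜 h2).1 (hg i)
    by_cases h1 : w i ≤ s
    · rw [if_pos h1]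
      by_cases h4 : d ≤ s
      · rw [if_pos h4, DirectSum.coe_decompose_mul_of_right_mem_of_le 𝒜 h3 (by omega)]
        have h5 : s - w i - (d - w i) = s - d := by omega
        rw [h5]
      · rw [if_neg h4, DirectSum.coe_decompose_mul_of_right_mem_of_not_le 𝒜 h3 (by omega),
          zero_mul]
    · rw [if_neg h1, if_neg (by omega), zero_mul]
  · rw [(mem_Bw_nle 𝒜 h2).1 (hg i)]
    simp

/-- A bound for the degrees. -/
theorem exists_bound {m : ℕ} (w : Fin m → ℕ) (f : Fin m → A) :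
    ∃ N, ∀ s, N ≤ s → cmp 𝒜 w s f = 0 := by
  classical
  have h1 : ∀ i : Fin m, ∃ N, ∀ s, N ≤ s → w i ≤ s → (decompose 𝒜 (f i) (s - w i) : A) = 0 := by
    intro i
    refine ⟨w i + (decompose 𝒜 (f i)).support.sup id + 1, fun s hs _ => ?_⟩
    by_contra h
    have h2 : s - w i ∈ (decompose 𝒜 (f i)).support := by
      rw [DFinsupp.mem_support_toFun]
      intro h3
      exact h (by rw [h3]; rfl)
    have h3 : s - w i ≤ (decompose 𝒜 (f i)).support.sup id := Finset.le_sup (f := id) h2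
    omega
  choose N hN using h1
  refine ⟨∑ i, N i, fun s hs => ?_⟩
  funext i
  unfold cmp
  split_ifs with h
  · exact hN i s ((Finset.single_le_sum (fun _ _ => Nat.zero_le _) (Finset.mem_univ i)).trans hs) h
  · rfl

theorem sum_decompose_range (x : A) {N : ℕ} (hN : ∀ s, N ≤ s → (decompose 𝒜 x s : A) = 0) :
    ∑ s ∈ Finset.range N, (decompose 𝒜 x s : A) = x := by
  classical
  conv_rhs => rw [← DirectSum.sum_support_decompose 𝒜 x]
  symm
  apply Finset.sum_subset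
  · intro s hs
    rw [Finset.mem_range]
    by_contra h
    rw [DFinsupp.mem_support_toFun] at hs
    exact hs (Subtype.ext (hN s (not_lt.1 h)))
  · intro s _ hs
    rw [DFinsupp.notMem_support_iff] at hs
    rw [hs]
    rfl

theorem sum_cmp {m : ℕ} (w : Fin m → ℕ) (f : Fin m → A) {N : ℕ}
    (hN : ∀ s, N ≤ s → cmp 𝒜 w s f = 0) : ∑ s ∈ Finset.range N, cmp 𝒜 w s f = f := by
  funext i
  rw [Finset.sum_apply]
  have h1 : ∑ s ∈ Finset.range N, cmp 𝒜 w s f i
      = ∑ s ∈ Finset.range (N - w i), (decompose 𝒜 (f i) s : A) := by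
    unfold cmp
    rw [← Finset.sum_filter]
    symm
    apply Finset.sum_nbij' (fun s => s + w i) (fun s => s - w i)
    · intro s hs
      simp only [Finset.mem_range, Finset.mem_filter] at hs ⊢
      omega
    · intro s hs
      simp only [Finset.mem_range, Finset.mem_filter] at hs ⊢
      omega
    · intro s hs
      simp
    · intro s hs
      simp only [Finset.mem_filter, Finset.mem_range] at hs
      exact Nat.sub_add_cancel hs.2
    · intro s hs
      rw [Nat.add_sub_cancel]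
  rw [h1]
  apply sum_decompose_range
  intro s hs
  have h2 := congrFun (hN (s + w i) (by omega)) i
  unfold cmp at h2
  rw [if_pos (by omega), Nat.add_sub_cancel] at h2
  exact h2

/-- Homogeneous submodules. -/
def Hom {m : ℕ} (w : Fin m → ℕ) (Z : Submodule A (Fin m → A)) : Prop :=
  ∀ f ∈ Z, ∀ s, cmp 𝒜 w s f ∈ Z

/-- The piece of degree `s` of a submodule. -/
def pz {m : ℕ} (w : Fin m → ℕ) (Z : Submodule A (Fin m → A)) (s : ℕ) : Submodule K (Fin m → A) :=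
  Z.restrictScalars K ⊓ FP 𝒜 w s

theorem mem_pz {m : ℕ} {w : Fin m → ℕ} {Z : Submodule A (Fin m → A)} {s : ℕ} {f : Fin m → A} :
    f ∈ pz 𝒜 w Z s ↔ f ∈ Z ∧ f ∈ FP 𝒜 w s := by simp [pz]

/-- A homogeneous family of `m'` generators. -/
structure Gen {m : ℕ} (w : Fin m → ℕ) (Z : Submodule A (Fin m → A)) (m' : ℕ) where
  g : Fin m' → (Fin m → A)
  w' : Fin m' → ℕ
  hg : ∀ j, g j ∈ FP 𝒜 w (w' j)
  hspan : Submodule.span A (Set.range g) = Z

theorem Gen.mem {m : ℕ} {w : Fin m → ℕ} {Z : Submodule A (Fin m → A)} {m' : ℕ}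
    (G : Gen 𝒜 w Z m') (j : Fin m') : G.g j ∈ Z :=
  G.hspan.le (Submodule.subset_span ⟨j, rfl⟩)

/-- A finite set of homogeneous elements is a family of generators. -/
theorem exists_gen_of_finset {m : ℕ} (w : Fin m → ℕ) (Z : Submodule A (Fin m → A))
    (S : Finset (Fin m → A)) (hS : ∀ f ∈ S, ∃ s, f ∈ FP 𝒜 w s)
    (hZ : Submodule.span A (S : Set (Fin m → A)) = Z) : ∃ m', Nonempty (Gen 𝒜 w Z m') := by
  classical
  choose! d hd using hS
  refine ⟨S.card, ⟨⟨fun j => (S.equivFin.symm j : Fin m → A),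
    fun j => d (S.equivFin.symm j : Fin m → A), fun j => hd _ (S.equivFin.symm j).2, ?_⟩⟩⟩
  rw [← hZ]
  congr 1
  ext f
  constructor
  · rintro ⟨j, rfl⟩
    exact (S.equivFin.symm j).2
  · intro hf
    exact ⟨S.equivFin ⟨f, hf⟩, by simp⟩

theorem exists_gen [IsNoetherianRing A] {m : ℕ} (w : Fin m → ℕ) (Z : Submodule A (Fin m → A))
    (hZ : Hom 𝒜 w Z) : ∃ m', Nonempty (Gen 𝒜 w Z m') := by
  classical
  obtain ⟨S, hS⟩ := (IsNoetherian.noetherian Z : Z.FG)
  choose N hN using fun f : Fin m → A => exists_bound 𝒜 w f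
  let S' : Finset (Fin m → A) := S.biUnion fun f => (Finset.range (N f)).image fun s => cmp 𝒜 w s f
  refine exists_gen_of_finset 𝒜 w Z S' ?_ ?_
  · intro f hf
    simp only [S', Finset.mem_biUnion, Finset.mem_image] at hf
    obtain ⟨f, -, s, -, rfl⟩ := hf
    exact ⟨s, cmp_mem 𝒜 w s f⟩
  · apply le_antisymm
    · rw [Submodule.span_le]
      intro f hf
      simp only [S', Finset.coe_biUnion, Finset.mem_coe, Set.mem_iUnion, Finset.mem_image] at hf
      obtain ⟨f, hfS, s, -, rfl⟩ := hf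
      exact hZ f (by rw [← hS]; exact Submodule.subset_span hfS) s
    · rw [← hS, Submodule.span_le]
      intro f hf
      rw [← sum_cmp 𝒜 w f (hN f)]
      refine Submodule.sum_mem _ fun s hs => Submodule.subset_span ?_
      simp only [S', Finset.coe_biUnion, Finset.mem_coe, Set.mem_iUnion, Finset.mem_image]
      exact ⟨f, hf, s, hs, rfl⟩

/-- The presentation map. -/
noncomputable def Gen.φ {m : ℕ} {w : Fin m → ℕ} {Z : Submodule A (Fin m → A)} {m' : ℕ}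
    (G : Gen 𝒜 w Z m') : (Fin m' → A) →ₗ[A] (Fin m → A) := Fintype.linearCombination A G.g

theorem Gen.φ_apply {m : ℕ} {w : Fin m → ℕ} {Z : Submodule A (Fin m → A)} {m' : ℕ}
    (G : Gen 𝒜 w Z m') (c : Fin m' → A) : G.φ 𝒜 c = ∑ j, c j • G.g j := by
  simp [Gen.φ, Fintype.linearCombination_apply]

theorem Gen.range_φ {m : ℕ} {w : Fin m → ℕ} {Z : Submodule A (Fin m → A)} {m' : ℕ}
    (G : Gen 𝒜 w Z m') : LinearMap.range (G.φ 𝒜) = Z :=
  (Fintype.range_linearCombination A G.g).trans G.hspan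

theorem Gen.φ_cmp {m : ℕ} {w : Fin m → ℕ} {Z : Submodule A (Fin m → A)} {m' : ℕ}
    (G : Gen 𝒜 w Z m') (s : ℕ) (c : Fin m' → A) :
    G.φ 𝒜 (cmp 𝒜 G.w' s c) = cmp 𝒜 w s (G.φ 𝒜 c) := by
  rw [G.φ_apply, G.φ_apply, cmp_sum]
  refine Finset.sum_congr rfl fun j _ => ?_
  rw [cmp_smul 𝒜 (G.hg j)]
  rfl

theorem Gen.ker_hom {m : ℕ} {w : Fin m → ℕ} {Z : Submodule A (Fin m → A)} {m' : ℕ}
    (G : Gen 𝒜 w Z m') : Hom 𝒜 G.w' (LinearMap.ker (G.φ 𝒜)) := by
  intro c hc s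
  rw [LinearMap.mem_ker] at hc ⊢
  rw [G.φ_cmp, hc, cmp_zero]

theorem Gen.φ_mem {m : ℕ} {w : Fin m → ℕ} {Z : Submodule A (Fin m → A)} {m' : ℕ}
    (G : Gen 𝒜 w Z m') {s : ℕ} {c : Fin m' → A} (hc : c ∈ FP 𝒜 G.w' s) :
    G.φ 𝒜 c ∈ FP 𝒜 w s := by
  have h1 : G.φ 𝒜 c = cmp 𝒜 w s (G.φ 𝒜 c) := by
    conv_lhs => rw [← cmp_self 𝒜 hc]
    exact G.φ_cmp 𝒜 s c
  rw [h1]
  exact cmp_mem 𝒜 w s _

end Pool.Agent.FLG
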