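import Pool.Agent.Lib_helper19.FLG.Res

/-!
# Hilbert series of homogeneous submodules of free modules (MP_ef4bac_al)
-/

set_option autoImplicit false
set_option linter.unusedSectionVars false

namespace Pool.Agent.FLG

open DirectSum Module Filter Topology

universe v u

variable {K : Type v} [Field K] {A : Type u} [Ring A] [Algebra K A]
variable (𝒜 : ℕ → Submodule K A) [GradedAlgebra 𝒜] [∀ s, Module.Finite K (𝒜 s)]

instance Bw_finite {m : ℕ} (w : Fin m → ℕ) (s : ℕ) (i : Fin m) :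
    Module.Finite K (Bw 𝒜 w s i) := by
  by_cases h : w i ≤ s
  · have h1 : Bw 𝒜 w s i = 𝒜 (s - w i) := if_pos h
    rw [h1]
    infer_instance
  · have h1 : Bw 𝒜 w s i = ⊥ := if_neg h
    rw [h1]
    infer_instance

theorem finrank_Bw {m : ℕ} (w : Fin m → ℕ) (s : ℕ) (i : Fin m) :
    (finrank K (Bw 𝒜 w s i) : ℝ) = sh (w i) (hf 𝒜 ⊤) s := by
  unfold sh hf hd
  have h0 : pc 𝒜 ⊤ (s - w i) = 𝒜 (s - w i) := by
    ext x
    simp [mem_pc]
  rw [h0]
  by_cases h : w i ≤ s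
  · have h1 : Bw 𝒜 w s i = 𝒜 (s - w i) := if_pos h
    rw [h1, if_pos h]
  · have h1 : Bw 𝒜 w s i = ⊥ := if_neg h
    rw [h1, if_neg h]
    simp

/-- The pieces of a free module are products. -/
noncomputable def FPequiv {m : ℕ} (w : Fin m → ℕ) (s : ℕ) :
    FP 𝒜 w s ≃ₗ[K] (∀ i, Bw 𝒜 w s i) where
  toFun f i := ⟨(f : Fin m → A) i, f.2 i⟩
  invFun f := ⟨fun i => (f i : A), fun i => (f i).2⟩
  left_inv _ := rfl
  right_inv _ := rfl
  map_add' _ _ := rfl
  map_smul' _ _ := rfl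

instance FP_finite {m : ℕ} (w : Fin m → ℕ) (s : ℕ) : Module.Finite K (FP 𝒜 w s) :=
  Module.Finite.equiv (FPequiv 𝒜 w s).symm

theorem finrank_FP {m : ℕ} (w : Fin m → ℕ) (s : ℕ) :
    (finrank K (FP 𝒜 w s) : ℝ) = ∑ i, sh (w i) (hf 𝒜 ⊤) s := by
  rw [(FPequiv 𝒜 w s).finrank_eq, Module.finrank_pi_fintype]
  push_cast
  exact Finset.sum_congr rfl fun i _ => finrank_Bw 𝒜 w s i

/-- The dimension of the piece of degree `s`. -/
noncomputable def zf {m : ℕ} (w : Fin m → ℕ) (Z : Submodule A (Fin m → A)) (s : ℕ) : ℝ :=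
  (finrank K (pz 𝒜 w Z s) : ℝ)

instance pz_finite {m : ℕ} (w : Fin m → ℕ) (Z : Submodule A (Fin m → A)) (s : ℕ) :
    Module.Finite K (pz 𝒜 w Z s) :=
  Submodule.finiteDimensional_of_le (S₂ := FP 𝒜 w s) inf_le_right

/-- The dimension formula for a presentation. -/
theorem zf_gen {m : ℕ} {w : Fin m → ℕ} {Z : Submodule A (Fin m → A)}
    {m' : ℕ} (G : Gen 𝒜 w Z m') (s : ℕ) :
    zf 𝒜 w Z s + zf 𝒜 G.w' (LinearMap.ker (G.φ 𝒜)) s = ∑ j, sh (G.w' j) (hf 𝒜 ⊤) s := by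
  rw [← finrank_FP]
  let ψ : FP 𝒜 G.w' s →ₗ[K] (Fin m → A) := ((G.φ 𝒜).restrictScalars K).domRestrict (FP 𝒜 G.w' s)
  have hψ : ∀ c, ψ c = G.φ 𝒜 (c : Fin m' → A) := fun _ => rfl
  have hr : LinearMap.range ψ = pz 𝒜 w Z s := by
    apply le_antisymm
    · rintro _ ⟨c, rfl⟩
      refine (mem_pz 𝒜).2 ⟨?_, G.φ_mem 𝒜 c.2⟩
      rw [hψ]
      exact (G.range_φ 𝒜).le ⟨_, rfl⟩
    · intro f hf
      obtain ⟨h1, h2⟩ := (mem_pz 𝒜).1 hf
      obtain ⟨c, hc⟩ := (G.range_φ 𝒜).ge h1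
      refine ⟨⟨cmp 𝒜 G.w' s c, cmp_mem 𝒜 G.w' s c⟩, ?_⟩
      rw [hψ]
      change G.φ 𝒜 (cmp 𝒜 G.w' s c) = f
      rw [G.φ_cmp, hc, cmp_self 𝒜 h2]
  have hk : finrank K (LinearMap.ker ψ)
      = finrank K (pz 𝒜 G.w' (LinearMap.ker (G.φ 𝒜)) s) := by
    have mk : ∀ x : LinearMap.ker ψ, ((x : FP 𝒜 G.w' s) : Fin m' → A) ∈
        pz 𝒜 G.w' (LinearMap.ker (G.φ 𝒜)) s := by
      intro x
      refine (mem_pz 𝒜).2 ⟨?_, (x : FP 𝒜 G.w' s).2⟩
      have := x.2
      rwa [LinearMap.mem_ker, hψ] at this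
    let f : LinearMap.ker ψ →ₗ[K] pz 𝒜 G.w' (LinearMap.ker (G.φ 𝒜)) s :=
      LinearMap.codRestrict _ ((FP 𝒜 G.w' s).subtype.comp (LinearMap.ker ψ).subtype) mk
    have hinj : Function.Injective f := by
      intro x y hxy
      have h1 := congrArg Subtype.val hxy
      exact Subtype.ext (Subtype.ext h1)
    have hsur : Function.Surjective f := by
      rintro ⟨x, hx⟩
      obtain ⟨h1, h2⟩ := (mem_pz 𝒜).1 hx
      exact ⟨⟨⟨x, h2⟩, h1⟩, rfl⟩
    exact (LinearEquiv.ofBijective f ⟨hinj, hsur⟩).finrank_eq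
  have h := LinearMap.finrank_range_add_finrank_ker ψ
  rw [hr, hk] at h
  unfold zf
  exact_mod_cast h

theorem zf_nonneg {m : ℕ} (w : Fin m → ℕ) (Z : Submodule A (Fin m → A)) (s : ℕ) :
    0 ≤ zf 𝒜 w Z s := Nat.cast_nonneg _

variable {𝒜}

theorem poly_zf (hg : Poly (hf 𝒜 ⊤)) {m : ℕ} (w : Fin m → ℕ) (Z : Submodule A (Fin m → A)) :
    Poly (zf 𝒜 w Z) := by
  have h1 : Poly (fun s => ∑ i, sh (w i) (hf 𝒜 ⊤) s) := Poly.sum _ fun i _ => hg.sh (w i)
  refine h1.of_le fun s => ?_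
  rw [abs_of_nonneg (zf_nonneg 𝒜 w Z s), ← finrank_FP, abs_of_nonneg (Nat.cast_nonneg _)]
  exact Nat.cast_le.2 (Submodule.finrank_mono inf_le_right)

/-- The presentation formula for the generating functions. -/
theorem H_gen (hg : Poly (hf 𝒜 ⊤)) {m : ℕ} {w : Fin m → ℕ} {Z : Submodule A (Fin m → A)}
    (hZ : Hom 𝒜 w Z) {m' : ℕ} (G : Gen 𝒜 w Z m') {t : ℝ} (h0 : 0 ≤ t) (h1 : t < 1) :
    H (zf 𝒜 w Z) t + H (zf 𝒜 G.w' (LinearMap.ker (G.φ 𝒜))) t
      = (∑ j, t ^ G.w' j) * HP 𝒜 ⊤ t := by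
  rw [← H_add (poly_zf hg _ _) (poly_zf hg _ _) h0 h1]
  have h2 : (fun s => zf 𝒜 w Z s + zf 𝒜 G.w' (LinearMap.ker (G.φ 𝒜)) s)
      = fun s => ∑ j, sh (G.w' j) (hf 𝒜 ⊤) s := funext fun s => zf_gen 𝒜 G s
  rw [h2, H_sum _ (fun j _ => hg.sh (G.w' j)) h0 h1, Finset.sum_mul]
  exact Finset.sum_congr rfl fun j _ => H_sh hg (G.w' j) h0 h1

theorem zf_bot {m : ℕ} (w : Fin m → ℕ) (s : ℕ) :
    zf 𝒜 w (⊥ : Submodule A (Fin m → A)) s = 0 := by
  unfold zf
  have : pz 𝒜 w (⊥ : Submodule A (Fin m → A)) s = ⊥ := by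
    rw [eq_bot_iff]
    intro x hx
    obtain ⟨h1, -⟩ := (mem_pz 𝒜).1 hx
    exact h1
  rw [this]
  simp

/-- In a minimal presentation the kernel has no unit entries. -/
theorem ker_min (h0 : ∀ a ∈ 𝒜 0, ∃ c : K, a = algebraMap K A c) {m : ℕ} {w : Fin m → ℕ}
    {Z : Submodule A (Fin m → A)} {m' : ℕ} (G : Gen 𝒜 w Z m')
    (hmin : ∀ k, k < m' → IsEmpty (Gen 𝒜 w Z k)) (c : Fin m' → A)
    (hc : c ∈ LinearMap.ker (G.φ 𝒜)) (j : Fin m') : (decompose 𝒜 (c j) 0 : A) = 0 := by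
  classical
  by_contra hne
  obtain ⟨κ, hκ⟩ := h0 _ (SetLike.coe_mem (decompose 𝒜 (c j) 0))
  have hκ0 : κ ≠ 0 := by
    rintro rfl
    rw [map_zero] at hκ
    exact hne hκ
  set c' := cmp 𝒜 G.w' (G.w' j) c with hc'
  have hc'k : c' ∈ LinearMap.ker (G.φ 𝒜) := G.ker_hom 𝒜 c hc _
  have hc'j : c' j = algebraMap K A κ := by
    rw [hc']
    unfold cmp
    rw [if_pos le_rfl, Nat.sub_self, hκ]
  rw [LinearMap.mem_ker, G.φ_apply] at hc'k
  obtain ⟨k, rfl⟩ : ∃ k, m' = k + 1 := ⟨m' - 1, by have := j.2; omega⟩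
  rw [Fin.sum_univ_succAbove _ j, hc'j] at hc'k
  have hgj : G.g j ∈ Submodule.span A (Set.range fun i => G.g (j.succAbove i)) := by
    have h1 : algebraMap K A κ • G.g j
        = -∑ i, c' (j.succAbove i) • G.g (j.succAbove i) := eq_neg_of_add_eq_zero_left hc'k
    have h2 : G.g j = algebraMap K A κ⁻¹ • (algebraMap K A κ • G.g j) := by
      rw [smul_smul, ← map_mul, inv_mul_cancel₀ hκ0, map_one, one_smul]
    rw [h2, h1]
    refine Submodule.smul_mem _ _ (Submodule.neg_mem _ (Submodule.sum_mem _ fun i _ => ?_))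
    exact Submodule.smul_mem _ _ (Submodule.subset_span ⟨i, rfl⟩)
  apply (hmin k (Nat.lt_succ_self k)).false
  refine ⟨fun i => G.g (j.succAbove i), fun i => G.w' (j.succAbove i),
    fun i => G.hg _, ?_⟩
  apply le_antisymm
  · rw [Submodule.span_le]
    rintro _ ⟨i, rfl⟩
    exact G.mem 𝒜 _
  · refine le_trans (le_of_eq G.hspan.symm) ?_
    rw [Submodule.span_le]
    rintro _ ⟨i, rfl⟩
    by_cases h : i = j
    · rw [h]
      exact hgj
    · obtain ⟨i', rfl⟩ := Fin.exists_succAbove_eq h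
      exact Submodule.subset_span ⟨i', rfl⟩

/-- A homogeneous direct summand of a graded free module inside `A₊ F` is zero. -/
theorem ker_bot {m' : ℕ} {w' : Fin m' → ℕ} {N : Submodule A (Fin m' → A)} (hN : Hom 𝒜 w' N)
    (hmin : ∀ c ∈ N, ∀ j, (decompose 𝒜 (c j) 0 : A) = 0)
    (π : (Fin m' → A) →ₗ[A] (Fin m' → A)) (hπ : ∀ c, π c ∈ N) (hπN : ∀ c ∈ N, π c = c) :
    N = ⊥ := by
  classical
  -- every homogeneous element is zero
  have key : ∀ s, ∀ c ∈ N, c ∈ FP 𝒜 w' s → c = 0 := by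
    intro s
    induction s using Nat.strong_induction_on with
    | _ s ih =>
      intro c hc hcs
      let n : Fin m' → (Fin m' → A) := fun j => π (Pi.single j 1)
      have hn : ∀ j, n j ∈ N := fun j => hπ _
      have h1 : c = ∑ j, c j • n j := by
        conv_lhs => rw [← hπN c hc]
        have h2 : c = ∑ j, c j • (Pi.single j 1 : Fin m' → A) := by
          funext i
          rw [Finset.sum_apply, Finset.sum_eq_single i]
          · simp
          · intro j _ hj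
            simp [Ne.symm hj]
          · simp
        conv_lhs => rw [h2]
        rw [map_sum]
        exact Finset.sum_congr rfl fun j _ => map_smul _ _ _
      have h3 : cmp 𝒜 w' s c = 0 := by
        rw [h1, cmp_sum]
        refine Finset.sum_eq_zero fun j _ => ?_
        obtain ⟨B, hB⟩ := exists_bound 𝒜 w' (n j)
        have h4 : c j • n j = ∑ d ∈ Finset.range B, c j • cmp 𝒜 w' d (n j) := by
          rw [← Finset.smul_sum, sum_cmp 𝒜 w' (n j) hB]
        rw [h4, cmp_sum]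
        refine Finset.sum_eq_zero fun d _ => ?_
        rw [cmp_smul 𝒜 (cmp_mem 𝒜 w' d (n j))]
        rcases lt_trichotomy d s with h | h | h
        · rw [ih d h _ (hN _ (hn j) d) (cmp_mem 𝒜 w' d (n j)), smul_zero]
        · subst h
          rw [if_pos le_rfl, Nat.sub_self, hmin c hc j, zero_smul]
        · rw [if_neg (not_le.2 h), zero_smul]
      rwa [cmp_self 𝒜 hcs] at h3
  rw [eq_bot_iff]
  intro c hc
  obtain ⟨B, hB⟩ := exists_bound 𝒜 w' c
  rw [Submodule.mem_bot, ← sum_cmp 𝒜 w' c hB]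
  exact Finset.sum_eq_zero fun s _ => key s _ (hN c hc s) (cmp_mem 𝒜 w' s c)

/-- The presentation map onto `Z`. -/
noncomputable def Gen.φ' {m : ℕ} {w : Fin m → ℕ} {Z : Submodule A (Fin m → A)} {m' : ℕ}
    (G : Gen 𝒜 w Z m') : (Fin m' → A) →ₗ[A] Z :=
  LinearMap.codRestrict Z (G.φ 𝒜) fun c => (G.range_φ 𝒜).le ⟨c, rfl⟩

theorem Gen.φ'_surj {m : ℕ} {w : Fin m → ℕ} {Z : Submodule A (Fin m → A)} {m' : ℕ}
    (G : Gen 𝒜 w Z m') : Function.Surjective G.φ' := by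
  rintro ⟨f, hf⟩
  obtain ⟨c, hc⟩ := (G.range_φ 𝒜).ge hf
  exact ⟨c, Subtype.ext hc⟩

theorem Gen.ker_φ' {m : ℕ} {w : Fin m → ℕ} {Z : Submodule A (Fin m → A)} {m' : ℕ}
    (G : Gen 𝒜 w Z m') : LinearMap.ker G.φ' = LinearMap.ker (G.φ 𝒜) :=
  LinearMap.ker_codRestrict _ _ _

open CategoryTheory in
/-- **Hilbert series of submodules of finite projective dimension.** -/
theorem exists_poly [IsNoetherianRing A] (hg : Poly (hf 𝒜 ⊤))
    (h0 : ∀ a ∈ 𝒜 0, ∃ c : K, a = algebraMap K A c) (n : ℕ) :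
    ∀ (m : ℕ) (w : Fin m → ℕ) (Z : Submodule A (Fin m → A)), Hom 𝒜 w Z →
      HasProjectiveDimensionLT (ModuleCat.of A Z) (n + 1) →
      ∃ q : Polynomial ℤ, ∀ t : ℝ, 0 < t → t < 1 →
        H (zf 𝒜 w Z) t = (q.map (Int.castRingHom ℝ)).eval t * HP 𝒜 ⊤ t := by
  classical
  induction n with
  | zero =>
    intro m w Z hZ hp
    have hex := exists_gen 𝒜 w Z hZ
    let m' := Nat.find hex
    obtain ⟨G⟩ : Nonempty (Gen 𝒜 w Z m') := Nat.find_spec hex
    have hmin : ∀ k, k < m' → IsEmpty (Gen 𝒜 w Z k) := fun k hk =>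
      not_nonempty_iff.1 (Nat.find_min hex hk)
    have hp' : HasProjectiveDimensionLT (ModuleCat.of A Z) 1 := hp
    have hproj : Projective (ModuleCat.of A Z) := inferInstance
    have hproj2 : Module.Projective A Z := (IsProjective.iff_projective (R := A) Z).2 hproj
    obtain ⟨σ, hσ⟩ := Module.projective_lifting_property G.φ' (LinearMap.id : Z →ₗ[A] Z) G.φ'_surj
    have hσ' : ∀ x, G.φ' (σ x) = x := fun x => by
      have := LinearMap.congr_fun hσ x
      simpa using this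
    have hker : LinearMap.ker (G.φ 𝒜) = ⊥ := by
      refine ker_bot (G.ker_hom 𝒜) (fun c hc j => ker_min h0 G hmin c hc j)
        (LinearMap.id - σ.comp G.φ') ?_ ?_
      · intro c
        rw [← G.ker_φ', LinearMap.mem_ker]
        simp [hσ']
      · intro c hc
        rw [← G.ker_φ', LinearMap.mem_ker] at hc
        simp [hc]
    refine ⟨∑ j, Polynomial.X ^ G.w' j, fun t h1 h2 => ?_⟩
    have h3 := H_gen hg hZ G h1.le h2
    have h4 : H (zf 𝒜 G.w' (LinearMap.ker (G.φ 𝒜))) t = 0 := by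
      rw [hker]
      have : zf 𝒜 G.w' (⊥ : Submodule A (Fin m' → A)) = fun _ => 0 := funext fun s => zf_bot _ s
      rw [this, H_zero]
    rw [h4, add_zero] at h3
    rw [h3]
    simp [Polynomial.map_sum, Polynomial.eval_finsetSum]
  | succ n ih =>
    intro m w Z hZ hp
    obtain ⟨m', ⟨G⟩⟩ := exists_gen 𝒜 w Z hZ
    let S : ShortComplex (ModuleCat.{u} A) := G.φ'.shortComplexKer
    have hS : S.ShortExact := LinearMap.shortExact_shortComplexKer G.φ'_surj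
    have h2 : HasProjectiveDimensionLT S.X₂ (n + 1) := by
      have : Projective S.X₂ := by
        have h5 : Module.Projective A (Fin m' → A) := inferInstance
        exact (IsProjective.iff_projective (R := A) (Fin m' → A)).1 h5
      have h6 : HasProjectiveDimensionLT S.X₂ 1 := inferInstance
      exact hasProjectiveDimensionLT_of_ge _ 1 (n + 1) (by omega)
    have h3 : HasProjectiveDimensionLT S.X₁ (n + 1) :=
      hS.hasProjectiveDimensionLT_X₁ (n + 1) h2 hp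
    have h4 : HasProjectiveDimensionLT (ModuleCat.of A (LinearMap.ker (G.φ 𝒜))) (n + 1) := by
      have h5 : HasProjectiveDimensionLT (ModuleCat.of A (LinearMap.ker G.φ')) (n + 1) := h3
      rw [G.ker_φ'] at h5
      exact h5
    obtain ⟨q, hq⟩ := ih m' G.w' _ (G.ker_hom 𝒜) h4
    refine ⟨∑ j, Polynomial.X ^ G.w' j - q, fun t h1 h2' => ?_⟩
    have h5 := H_gen hg hZ G h1.le h2'
    rw [hq t h1 h2'] at h5
    rw [eq_sub_of_add_eq h5]
    simp only [Polynomial.map_sub, Polynomial.map_sum, Polynomial.map_pow, Polynomial.map_X,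
      Polynomial.eval_sub, Polynomial.eval_finsetSum, Polynomial.eval_pow, Polynomial.eval_X]
    ring

end Pool.Agent.FLG
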