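import Pool.Agent.Lib_helper19.FLG.Grd

/-!
# Small ideals over the members of a flag (MP_ef4bac_al)
-/

set_option autoImplicit false
set_option linter.unusedSectionVars false

namespace Pool.Agent.FLG

open DirectSum Module Filter Topology

variable {K : Type*} [Field K] {A : Type*} [Ring A] [Algebra K A]
variable (𝒜 : ℕ → Submodule K A) [GradedAlgebra 𝒜] [∀ s, Module.Finite K (𝒜 s)]

/-- The generating function of a left ideal. -/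
noncomputable def HP (P : Ideal A) (t : ℝ) : ℝ := H (hf 𝒜 P) t

variable {𝒜}

theorem poly_hf (hg : Poly (hf 𝒜 ⊤)) (P : Ideal A) : Poly (hf 𝒜 P) :=
  hg.of_le fun s => by
    rw [abs_of_nonneg (hf_nonneg 𝒜 P s), abs_of_nonneg (hf_nonneg 𝒜 ⊤ s)]
    exact hf_mono 𝒜 le_top s

theorem HP_mono (hg : Poly (hf 𝒜 ⊤)) {P Q : Ideal A} (h : P ≤ Q) {t : ℝ} (h0 : 0 ≤ t)
    (h1 : t < 1) : HP 𝒜 P t ≤ HP 𝒜 Q t :=
  H_mono (poly_hf hg P) (poly_hf hg Q) h0 h1 (hf_mono 𝒜 h)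

theorem HP_sup (hg : Poly (hf 𝒜 ⊤)) {P Q : Ideal A} (hP : P.IsHomogeneous 𝒜)
    (hQ : Q.IsHomogeneous 𝒜) {t : ℝ} (h0 : 0 ≤ t) (h1 : t < 1) :
    HP 𝒜 (P ⊔ Q) t + HP 𝒜 (P ⊓ Q) t = HP 𝒜 P t + HP 𝒜 Q t := by
  unfold HP
  rw [← H_add (poly_hf hg _) (poly_hf hg _) h0 h1, ← H_add (poly_hf hg _) (poly_hf hg _) h0 h1]
  congr 1
  funext s
  unfold hf
  exact_mod_cast hd_sup_add_inf 𝒜 hP hQ s

theorem HP_map (hg : Poly (hf 𝒜 ⊤)) {I P : Ideal A} (hI : I.IsHomogeneous 𝒜)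
    (hP : P.IsHomogeneous 𝒜) {z : A} {e : ℕ} (hz : z ∈ 𝒜 e) {t : ℝ} (h0 : 0 ≤ t) (h1 : t < 1) :
    HP 𝒜 (I ⊔ mp z P) t - HP 𝒜 I t = t ^ e * (HP 𝒜 P t - HP 𝒜 (P ⊓ cm z I) t) := by
  unfold HP
  rw [← H_sub (poly_hf hg _) (poly_hf hg _) h0 h1, ← H_sub (poly_hf hg _) (poly_hf hg _) h0 h1,
    ← H_sh ((poly_hf hg _).sub (poly_hf hg _)) e h0 h1]
  congr 1
  funext s
  exact hf_map 𝒜 hI hP hz s

variable (𝒜) in
/-- `P` is small over `I`. -/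
def Sm (I P : Ideal A) : Prop :=
  Tendsto (fun t => (HP 𝒜 P t - HP 𝒜 I t) / (HP 𝒜 ⊤ t - HP 𝒜 I t)) (𝓝[<] 1) (𝓝 0)

variable (𝒜) in
/-- No homogeneous left ideal over `I` is small over `I`, but `I`. -/
def Pure (I : Ideal A) : Prop :=
  ∀ P : Ideal A, P.IsHomogeneous 𝒜 → I ≤ P → Sm 𝒜 I P → P = I

theorem ev_Ioo : ∀ᶠ t : ℝ in 𝓝[<] 1, 0 < t ∧ t < 1 := by
  have h1 : Set.Ioo (0 : ℝ) 1 ∈ 𝓝[<] (1 : ℝ) := Ioo_mem_nhdsLT (by norm_num)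
  exact h1

theorem Sm.of_le (hg : Poly (hf 𝒜 ⊤)) {I P Q : Ideal A} (hP : I ≤ P) {c : ℝ → ℝ} {c₀ : ℝ}
    (hc : Tendsto c (𝓝[<] 1) (𝓝 c₀)) (hD : ∀ t, 0 < t → t < 1 → 0 < HP 𝒜 ⊤ t - HP 𝒜 I t)
    (h : ∀ t, 0 < t → t < 1 → HP 𝒜 P t - HP 𝒜 I t ≤ c t * (HP 𝒜 Q t - HP 𝒜 I t))
    (hQ : Sm 𝒜 I Q) : Sm 𝒜 I P := by
  have h1 := hc.mul hQ
  rw [mul_zero] at h1
  refine tendsto_of_tendsto_of_tendsto_of_le_of_le' tendsto_const_nhds h1 ?_ ?_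
  · filter_upwards [ev_Ioo] with t ht
    exact div_nonneg (sub_nonneg.2 (HP_mono hg hP ht.1.le ht.2)) (hD t ht.1 ht.2).le
  · filter_upwards [ev_Ioo] with t ht
    rw [← mul_div_assoc]
    exact div_le_div_of_nonneg_right (h t ht.1 ht.2) (hD t ht.1 ht.2).le

theorem Sm.sup (hg : Poly (hf 𝒜 ⊤)) {I P Q : Ideal A} (hP : P.IsHomogeneous 𝒜)
    (hQ : Q.IsHomogeneous 𝒜) (hIP : I ≤ P) (hIQ : I ≤ Q)
    (hD : ∀ t, 0 < t → t < 1 → 0 < HP 𝒜 ⊤ t - HP 𝒜 I t)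
    (h1 : Sm 𝒜 I P) (h2 : Sm 𝒜 I Q) : Sm 𝒜 I (P ⊔ Q) := by
  have h3 := h1.add h2
  rw [add_zero] at h3
  refine tendsto_of_tendsto_of_tendsto_of_le_of_le' tendsto_const_nhds h3 ?_ ?_
  · filter_upwards [ev_Ioo] with t ht
    exact div_nonneg (sub_nonneg.2 (HP_mono hg (hIP.trans le_sup_left) ht.1.le ht.2))
      (hD t ht.1 ht.2).le
  · filter_upwards [ev_Ioo] with t ht
    rw [← add_div]
    apply div_le_div_of_nonneg_right _ (hD t ht.1 ht.2).le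
    have h4 := HP_sup hg hP hQ ht.1.le ht.2
    have h5 := HP_mono hg (le_inf hIP hIQ) ht.1.le ht.2
    linarith

theorem tendsto_pow_one (e : ℕ) : Tendsto (fun t : ℝ => t ^ e) (𝓝[<] 1) (𝓝 1) := by
  have h : Tendsto (fun t : ℝ => t ^ e) (𝓝 1) (𝓝 (1 ^ e)) :=
    (continuous_pow e).tendsto 1
  rw [one_pow] at h
  exact h.mono_left nhdsWithin_le_nhds

/-- **One step of the flag.** -/
theorem pure_step [IsNoetherianRing A] (hg : Poly (hf 𝒜 ⊤)) {I : Ideal A}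
    (hI : I.IsHomogeneous 𝒜) {z : A} {e : ℕ} (he : 0 < e) (hz : z ∈ 𝒜 e)
    (hflag : ∀ a, a * z ∈ I ↔ a ∈ I) (hD : ∀ t, 0 < t → t < 1 → 0 < HP 𝒜 ⊤ t - HP 𝒜 I t)
    (ih : Pure 𝒜 (I ⊔ mp z ⊤)) : Pure 𝒜 I := by
  classical
  have hcmI : cm z I = I := by
    ext a
    rw [mem_cm, hflag]
  have hI' : (I ⊔ mp z ⊤ : Ideal A).IsHomogeneous 𝒜 :=
    Ideal.IsHomogeneous.sup hI (map_homog 𝒜 (Ideal.IsHomogeneous.top 𝒜) hz)
  have hone : ∀ t : ℝ, 0 < t → t < 1 → 0 < 1 - t ^ e := fun t h0 h1 =>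
    sub_pos.2 (pow_lt_one₀ h0.le h1 he.ne')
  -- the set of the small ideals and a maximal member
  let S : Set (Ideal A) := {P | P.IsHomogeneous 𝒜 ∧ I ≤ P ∧ Sm 𝒜 I P}
  have hIS : I ∈ S := ⟨hI, le_rfl, by
    unfold Sm
    simp⟩
  obtain ⟨T, ⟨hT, hIT, hTs⟩, hmax⟩ :=
    (wellFounded_gt (α := Ideal A)).has_min S ⟨I, hIS⟩
  have hle : ∀ P ∈ S, P ≤ T := by
    intro P hP
    have h1 : T ⊔ P ∈ S := ⟨hT.sup hP.1, hIT.trans le_sup_left,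
      Sm.sup hg hT hP.1 hIT hP.2.1 hD hTs hP.2.2⟩
    have h2 : ¬ (T < T ⊔ P) := hmax _ h1
    have h3 : T = T ⊔ P := by
      by_contra h
      exact h2 (lt_of_le_of_ne le_sup_left h)
    rw [h3]
    exact le_sup_right
  -- (b)
  have hTI : T ⊓ cm z I = I := by
    rw [hcmI]
    exact inf_eq_right.2 hIT
  have hT1 : ∀ t, 0 < t → t < 1 →
      HP 𝒜 (I ⊔ mp z T) t - HP 𝒜 I t = t ^ e * (HP 𝒜 T t - HP 𝒜 I t) := by
    intro t h0 h1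
    rw [HP_map hg hI hT hz h0.le h1, hTI]
  have hb : I ⊔ mp z T ≤ T := by
    apply hle
    refine ⟨hI.sup (map_homog 𝒜 hT hz), le_sup_left, ?_⟩
    exact Sm.of_le hg le_sup_left (tendsto_pow_one e) hD
      (fun t h0 h1 => (hT1 t h0 h1).le) hTs
  -- (c)
  have hc : cm z T ≤ T := by
    apply hle
    have hIc : I ≤ cm z T := fun a ha => mem_cm.2 (hIT ((hflag a).2 ha))
    refine ⟨comap_homog 𝒜 hT hz, hIc, ?_⟩
    have h2 : I ⊔ mp z (cm z T) ≤ T := by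
      refine sup_le hIT ?_
      intro x hx
      obtain ⟨p, hp, rfl⟩ := mem_mp.1 hx
      exact mem_cm.1 hp
    have hci : Tendsto (fun t : ℝ => (t ^ e)⁻¹) (𝓝[<] 1) (𝓝 1) := by
      have := (tendsto_pow_one e).inv₀ one_ne_zero
      rwa [inv_one] at this
    refine Sm.of_le hg hIc hci hD (fun t h0 h1 => ?_) hTs
    have h3 := HP_map hg hI (comap_homog 𝒜 hT hz) hz h0.le h1
    have h4 : cm z T ⊓ cm z I = I := by
      rw [hcmI]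
      exact inf_eq_right.2 hIc
    rw [h4] at h3
    have h5 := HP_mono hg h2 h0.le h1
    have h6 : 0 < t ^ e := pow_pos h0 e
    rw [le_inv_mul_iff₀ h6]
    linarith
  -- (d)
  have hd : T ⊓ (I ⊔ mp z ⊤) = I ⊔ mp z T := by
    apply le_antisymm
    · rintro x ⟨hx1, hx2⟩
      obtain ⟨i, hi, q, hq, rfl⟩ := Submodule.mem_sup.1 hx2
      obtain ⟨a, -, rfl⟩ := mem_mp.1 hq
      have h1 : a * z ∈ T := by
        have := T.sub_mem hx1 (hIT hi)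
        simpa using this
      exact Submodule.add_mem_sup hi (mem_mp.2 ⟨a, hc (mem_cm.2 h1), rfl⟩)
    · refine le_inf hb (sup_le_sup_left ?_ _)
      intro x hx
      obtain ⟨p, hp, rfl⟩ := mem_mp.1 hx
      exact mem_mp.2 ⟨p, Submodule.mem_top, rfl⟩
  -- (e)
  have he1 : ∀ t, 0 < t → t < 1 → HP 𝒜 (T ⊔ (I ⊔ mp z ⊤)) t - HP 𝒜 (I ⊔ mp z ⊤) t
      = (1 - t ^ e) * (HP 𝒜 T t - HP 𝒜 I t) := by
    intro t h0 h1
    have h2 := HP_sup hg hT hI' h0.le h1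
    rw [hd] at h2
    have h3 := hT1 t h0 h1
    linear_combination h2 - h3
  have he2 : ∀ t, 0 < t → t < 1 → HP 𝒜 ⊤ t - HP 𝒜 (I ⊔ mp z ⊤) t
      = (1 - t ^ e) * (HP 𝒜 ⊤ t - HP 𝒜 I t) := by
    intro t h0 h1
    have h2 := HP_map hg hI (Ideal.IsHomogeneous.top 𝒜) hz h0.le h1
    rw [hcmI, top_inf_eq] at h2
    linear_combination -h2
  have hsm : Sm 𝒜 (I ⊔ mp z ⊤) (T ⊔ (I ⊔ mp z ⊤)) := by
    unfold Sm
    refine hTs.congr' ?_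
    filter_upwards [ev_Ioo] with t ht
    rw [he1 t ht.1 ht.2, he2 t ht.1 ht.2, mul_div_mul_left _ _ (hone t ht.1 ht.2).ne']
  have hf1 := ih _ (hT.sup hI') le_sup_right hsm
  have hf2 : T ≤ I ⊔ mp z ⊤ := by
    rw [← hf1]
    exact le_sup_left
  have hf3 : T = I ⊔ mp z T := by
    rw [← hd]
    exact (inf_eq_left.2 hf2).symm
  -- (f)
  have hu : ∀ s, hf 𝒜 T s = hf 𝒜 I s := by
    intro s
    induction s using Nat.strong_induction_on with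
    | _ s ihs =>
      have h1 := hf_map 𝒜 hI hT hz s
      rw [← hf3, hTI] at h1
      unfold sh at h1
      split_ifs at h1 with h
      · have h2 := ihs (s - e) (by omega)
        have h3 : hf 𝒜 T s - hf 𝒜 I s = hf 𝒜 T (s - e) - hf 𝒜 I (s - e) := h1
        rw [h2] at h3
        linarith
      · linarith
  have hTeq : I = T := by
    refine eq_of_hd 𝒜 hIT hT fun s => ?_
    have := hu s
    unfold hf at this
    exact_mod_cast this.symm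
  intro P hP hIP hPs
  exact le_antisymm (by rw [hTeq]; exact hle P ⟨hP, hIP, hPs⟩) hIP

/-- **The top of the flag.** -/
theorem pure_base (hg : Poly (hf 𝒜 ⊤)) {I : Ideal A} (hI : I.IsHomogeneous 𝒜)
    (hp : ∀ a b, a * b ∈ I → a ∈ I ∨ b ∈ I)
    (hD : ∀ t, 0 < t → t < 1 → 0 < HP 𝒜 ⊤ t - HP 𝒜 I t) : Pure 𝒜 I := by
  classical
  intro P hP hIP hs
  by_contra hne
  obtain ⟨x, hxP, hxI⟩ : ∃ x ∈ P, x ∉ I := by
    by_contra h
    push Not at h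
    exact hne (le_antisymm h hIP)
  obtain ⟨d, hd⟩ : ∃ d, (decompose 𝒜 x d : A) ∉ I := by
    by_contra h
    push Not at h
    exact hxI ((hI.mem_iff 𝒜).2 h)
  set a : A := (decompose 𝒜 x d : A) with ha
  have haP : a ∈ P := hP d hxP
  have had : a ∈ 𝒜 d := SetLike.coe_mem _
  have hcm : (⊤ : Ideal A) ⊓ cm a I ≤ I := by
    rintro b ⟨-, hb⟩
    exact (hp b a (mem_cm.1 hb)).resolve_right hd
  have hle : I ⊔ mp a ⊤ ≤ P := by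
    refine sup_le hIP ?_
    intro y hy
    obtain ⟨b, -, rfl⟩ := mem_mp.1 hy
    exact P.mul_mem_left b haP
  have h1 : ∀ᶠ t in 𝓝[<] (1 : ℝ), t ^ d ≤
      (HP 𝒜 P t - HP 𝒜 I t) / (HP 𝒜 ⊤ t - HP 𝒜 I t) := by
    filter_upwards [ev_Ioo] with t ht
    rw [le_div_iff₀ (hD t ht.1 ht.2)]
    have h2 := HP_map hg hI (Ideal.IsHomogeneous.top 𝒜) had ht.1.le ht.2
    have h3 := HP_mono hg hcm ht.1.le ht.2
    have h4 := HP_mono hg hle ht.1.le ht.2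
    have h5 : t ^ d * (HP 𝒜 ⊤ t - HP 𝒜 I t)
        ≤ t ^ d * (HP 𝒜 ⊤ t - HP 𝒜 (⊤ ⊓ cm a I) t) :=
      mul_le_mul_of_nonneg_left (by linarith) (pow_nonneg ht.1.le d)
    linarith
  have h6 := le_of_tendsto_of_tendsto (tendsto_pow_one d) hs h1
  linarith

end Pool.Agent.FLG
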